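import Pool.Agent.ETPN.HP2

/-!
**THEOREM FL** (note 2765, helper11): for one symbol `c ≠ 0` the two laws (3N) and (I3) on
three-dimensional subspaces refute a structure with `K4At`.
-/

set_option autoImplicit false
set_option linter.unusedSimpArgs false
set_option linter.unnecessarySeqFocus false
set_option linter.unusedSectionVars false

namespace Pool.Agent.ETPT

open Pool.Agent.Helper58.PLine (QData)
open Pool.Agent.ETCP
open Pool.Agent.ETPF
open Pool.Agent.ETPG
open Pool.Agent.ETPN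
open ETC (zm)

variable {V Q : Type} [AddCommGroup V] [Module (ZMod 2) V] {D : QData V Q}

/-! ### elements which commute with a slot -/

/-- `v` commutes with a slot of `c` -/
def Cm (D : QData V Q) (c : Q) (v : V) : Prop := ∃ s, Sg D c s ∧ C D s v

/-- adding a slot to an element which commutes with a slot -/
theorem Cm.add_slot (he : D.e = 0) {c : Q} {a t : V} (ha : Cm D c a) (ht : Sg D c t) :
    Cm D c (a + t) := by
  obtain ⟨s, hs, hsa⟩ := ha
  obtain ⟨y, h1, h2⟩ := hs.common ht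
  have h3 : Sg D c (y + a) := Sg.right (qa h1 hsa)
  have h4 : D.q y t = c := by rw [D.symm]; exact h2
  have h5 : Sg D c (t + y) := Sg.right (qa h4 (C.self he y))
  obtain ⟨u, h6, h7⟩ := h3.common h5
  refine ⟨u, Sg.right h6, ?_⟩
  have h8 := q_eq'_iff.1 (h6.trans h7.symm)
  exact h8.symm.of_eq rfl (eo (by
    abel_nf <;> simp only [ch2, ch3, ch4, add_zero, zero_add]))

/-- every element of the span of the slots commutes with a slot -/
theorem cm_span (he : D.e = 0) {c : Q} (hne : ∃ s, Sg D c s) {v : V}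
    (hv : v ∈ Submodule.span (ZMod 2) {s | Sg D c s}) : Cm D c v := by
  have key : ∀ v ∈ Submodule.span (ZMod 2) {s | Sg D c s}, ∀ a, Cm D c a → Cm D c (a + v) := by
    intro v hv
    induction hv using Submodule.span_induction with
    | mem x hx => intro a ha; exact ha.add_slot he hx
    | zero => intro a ha; rwa [add_zero]
    | add x y _ _ hx hy => intro a ha; rw [← add_assoc]; exact hy _ (hx _ ha)
    | smul r x _ hx =>
      intro a ha
      rcases zm r with rfl | rfl
      · rwa [zero_smul, add_zero]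
      · rw [one_smul]; exact hx _ ha
  obtain ⟨s, hs⟩ := hne
  have h0 : Cm D c 0 := ⟨s, hs, C.zero s⟩
  have := key v hv 0 h0
  rwa [zero_add] at this

/-- a non-slot in the span becomes a slot by adding a suitable slot -/
theorem ex_shift (he : D.e = 0) {c : Q} (hne : ∃ s, Sg D c s) {v : V}
    (hv : v ∈ Submodule.span (ZMod 2) {s | Sg D c s}) : ∃ s, Sg D c s ∧ Sg D c (s + v) := by
  obtain ⟨y, ⟨r, hr⟩, hy⟩ := cm_span he hne hv
  exact ⟨r, Sg.right hr, Sg.right (qa hr hy)⟩

/-! ### the combinatorial part -/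

/-- the two laws for a colouring `P` of a subspace `E` -/
structure FLaw (E : Submodule (ZMod 2) V) (P : V → Prop) : Prop where
  p : ∀ a ∈ E, ∀ b ∈ E, ∀ e ∈ E, P a → P b → P e → ¬ P (a + b) → ¬ P (a + e) → ¬ P (b + e) →
    P (a + b + e)
  n : ∀ a ∈ E, ∀ b ∈ E, ∀ e ∈ E, ¬ P a → ¬ P b → ¬ P e → P (a + b) → P (a + e) → P (b + e) →
    ¬ P (a + b + e)

namespace FLaw

variable {E : Submodule (ZMod 2) V} {P : V → Prop}

theorem swap (X : FLaw E P) : FLaw E (fun v => ¬ P v) where
  p := fun a ha b hb e he h1 h2 h3 h4 h5 h6 =>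
    X.n a ha b hb e he h1 h2 h3 (not_not.1 h4) (not_not.1 h5) (not_not.1 h6)
  n := fun a ha b hb e he h1 h2 h3 h4 h5 h6 => not_not.2
    (X.p a ha b hb e he (not_not.1 h1) (not_not.1 h2) (not_not.1 h3) h4 h5 h6)

/-- `x ◁ y ◁ z` -/
theorem tri (X : FLaw E P) {x y z : V} (hx : x ∈ E) (hy : y ∈ E) (hz : z ∈ E) (px : P x)
    (pz : P z) (py : ¬ P y) (h1 : P (x + y)) (h2 : ¬ P (y + z)) :
    P (x + z) ∧ P (x + z + y) := by
  by_cases h3 : P (x + z)
  · refine ⟨h3, ?_⟩
    by_contra h4
    have := X.n y hy (y + z) (E.add_mem hy hz) (x + z + y) (E.add_mem (E.add_mem hx hz) hy)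
      py h2 h4 (by
        rwa [show y + (y + z) = z from eo (by
          abel_nf <;> simp only [ch2, ch3, ch4, add_zero, zero_add])]) (by
        rwa [show y + (x + z + y) = x + z from eo (by
          abel_nf <;> simp only [ch2, ch3, ch4, add_zero, zero_add])]) (by
        rwa [show y + z + (x + z + y) = x from eo (by
          abel_nf <;> simp only [ch2, ch3, ch4, add_zero, zero_add])])
    rw [show y + (y + z) + (x + z + y) = x + y from eo (by
          abel_nf <;> simp only [ch2, ch3, ch4, add_zero, zero_add])] at this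
    exact this h1
  · exfalso
    by_cases h4 : P (x + z + y)
    · have := X.n y hy (y + z) (E.add_mem hy hz) (x + z) (E.add_mem hx hz)
        py h2 h3 (by
          rwa [show y + (y + z) = z from eo (by
            abel_nf <;> simp only [ch2, ch3, ch4, add_zero, zero_add])]) (by
          rwa [show y + (x + z) = x + z + y from by abel]) (by
          rwa [show y + z + (x + z) = x + y from eo (by
            abel_nf <;> simp only [ch2, ch3, ch4, add_zero, zero_add])])
      rw [show y + (y + z) + (x + z) = x from eo (by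
            abel_nf <;> simp only [ch2, ch3, ch4, add_zero, zero_add])] at this
      exact this px
    · have := X.p x hx z hz (x + y) (E.add_mem hx hy) px pz h1 h3 (by
          rwa [show x + (x + y) = y from eo (by
            abel_nf <;> simp only [ch2, ch3, ch4, add_zero, zero_add])]) (by
          rwa [show z + (x + y) = x + z + y from by abel])
      rw [show x + z + (x + y) = y + z from eo (by
            abel_nf <;> simp only [ch2, ch3, ch4, add_zero, zero_add])] at this
      exact h2 this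

/-- no cycle `x ◁ y ◁ z ◁ w ◁ x` -/
theorem no_cycle (X : FLaw E P) {x y z w : V} (hx : x ∈ E) (hy : y ∈ E) (hz : z ∈ E)
    (hw : w ∈ E) (px : P x) (pz : P z) (py : ¬ P y) (pw : ¬ P w) (h1 : P (x + y))
    (h2 : ¬ P (y + z)) (h3 : P (z + w)) (h4 : ¬ P (w + x)) : False := by
  obtain ⟨a1, a2⟩ := X.tri hx hy hz px pz py h1 h2
  obtain ⟨-, b2⟩ := X.tri hz hw hx pz px pw h3 h4
  obtain ⟨c1, c2⟩ := X.swap.tri hy hz hw py pw (not_not.2 pz) h2 (not_not.2 h3)
  obtain ⟨-, d2⟩ := X.swap.tri hw hx hy pw py (not_not.2 px) h4 (not_not.2 h1)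
  have e1 := X.p (x + z) (E.add_mem hx hz) (x + z + y) (E.add_mem (E.add_mem hx hz) hy)
    (z + x + w) (E.add_mem (E.add_mem hz hx) hw) a1 a2 b2 (by
      rwa [show x + z + (x + z + y) = y from eo (by
        abel_nf <;> simp only [ch2, ch3, ch4, add_zero, zero_add])]) (by
      rwa [show x + z + (z + x + w) = w from eo (by
        abel_nf <;> simp only [ch2, ch3, ch4, add_zero, zero_add])]) (by
      rwa [show x + z + y + (z + x + w) = y + w from eo (by
        abel_nf <;> simp only [ch2, ch3, ch4, add_zero, zero_add])])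
  have e2 := X.n (y + w) (E.add_mem hy hw) (y + w + z) (E.add_mem (E.add_mem hy hw) hz)
    (w + y + x) (E.add_mem (E.add_mem hw hy) hx) c1 c2 d2 (by
      rwa [show y + w + (y + w + z) = z from eo (by
        abel_nf <;> simp only [ch2, ch3, ch4, add_zero, zero_add])]) (by
      rwa [show y + w + (w + y + x) = x from eo (by
        abel_nf <;> simp only [ch2, ch3, ch4, add_zero, zero_add])]) (by
      rwa [show y + w + z + (w + y + x) = x + z from eo (by
        abel_nf <;> simp only [ch2, ch3, ch4, add_zero, zero_add])])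
  apply e2
  rwa [show y + w + (y + w + z) + (w + y + x) = x + z + (x + z + y) + (z + x + w) from eo (by
        abel_nf <;> simp only [ch2, ch3, ch4, add_zero, zero_add])]

/-- the elements of `E` without the property `P` lie in a proper subspace -/
theorem proper [Finite V] (X : FLaw E P) (hne : ∃ s ∈ E, P s) (h0 : ¬ P 0)
    (hs : ∀ n ∈ E, ∃ s ∈ E, P s ∧ P (s + n)) :
    ∃ l : Module.Dual (ZMod 2) V, (∃ s ∈ E, l s = 1) ∧ ∀ v ∈ E, l v = 1 → P v := by
  classical
  obtain ⟨s1, hs1, hp1⟩ := hne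
  let A : V → Set V := fun s => {n | n ∈ E ∧ ¬ P n ∧ ¬ P (s + n)}
  obtain ⟨s0, ⟨hs0, p0⟩, hmin⟩ := Set.exists_min_image {s : V | s ∈ E ∧ P s}
    (fun s => (A s).ncard) (Set.toFinite _) ⟨s1, hs1, hp1⟩
  -- `A s0` is empty
  have hA : ∀ n ∈ E, ¬ P n → P (s0 + n) := by
    by_contra hcon
    push Not at hcon
    obtain ⟨n, hn, pn, pn'⟩ := hcon
    obtain ⟨s', hs', ps', h1⟩ := hs n hn
    have hsub : A s' ⊆ A s0 := by
      rintro n' ⟨h2, h3, h4⟩
      refine ⟨h2, h3, fun h5 => ?_⟩
      exact X.no_cycle hs' hn hs0 h2 ps' p0 pn h3 h1 (by rwa [add_comm]) h5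
        (by rwa [add_comm])
    have hlt : (A s').ncard < (A s0).ncard := by
      refine Set.ncard_lt_ncard ⟨hsub, fun h => ?_⟩ (Set.toFinite _)
      exact (h (show n ∈ A s0 from ⟨hn, pn, pn'⟩)).2.2 h1
    exact absurd (hmin s' ⟨hs', ps'⟩) (by omega)
  -- the span of the elements without `P`
  have cl : ∀ a ∈ E, ∀ b ∈ E, ∀ e ∈ E, ¬ P a → ¬ P b → ¬ P e →
      ∃ a' ∈ E, ∃ b' ∈ E, ¬ P a' ∧ ¬ P b' ∧ a + b + e = a' + b' := by
    intro a ha b hb e he pa pb pe
    by_cases h1 : P (a + b)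
    · by_cases h2 : P (a + e)
      · by_cases h3 : P (b + e)
        · exact ⟨a + b + e, E.add_mem (E.add_mem ha hb) he, 0, E.zero_mem,
            X.n a ha b hb e he pa pb pe h1 h2 h3, h0, (add_zero _).symm⟩
        · exact ⟨a, ha, b + e, E.add_mem hb he, pa, h3, by abel⟩
      · exact ⟨b, hb, a + e, E.add_mem ha he, pb, h2, by abel⟩
    · exact ⟨a + b, E.add_mem ha hb, e, he, h1, pe, rfl⟩
  let M : Submodule (ZMod 2) V := mkS
    (fun v => ∃ a ∈ E, ∃ b ∈ E, ¬ P a ∧ ¬ P b ∧ v = a + b)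
    ⟨0, E.zero_mem, 0, E.zero_mem, h0, h0, (add_zero _).symm⟩ (by
      rintro _ _ ⟨a, ha, b, hb, pa, pb, rfl⟩ ⟨a', ha', b', hb', pa', pb', rfl⟩
      obtain ⟨a2, ha2, b2, hb2, pa2, pb2, h1⟩ := cl a ha b hb a' ha' pa pb pa'
      obtain ⟨a3, ha3, b3, hb3, pa3, pb3, h2⟩ := cl a2 ha2 b2 hb2 b' hb' pa2 pb2 pb'
      exact ⟨a3, ha3, b3, hb3, pa3, pb3, by rw [← h2, ← h1]; abel⟩)
  have hM : s0 ∉ M := by
    rintro ⟨a, ha, b, hb, pa, pb, h1⟩
    apply pb
    have := hA a ha pa
    rwa [show s0 + a = b from eo (by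
      rw [h1]
      abel_nf <;> simp only [ch2, ch3, ch4, add_zero, zero_add])] at this
  obtain ⟨l, l1, l2⟩ := ETC.exists_dual_sep hM
  refine ⟨l, ⟨s0, hs0, l1⟩, fun v hv hl => ?_⟩
  by_contra hcon
  have := l2 v ⟨v, hv, 0, E.zero_mem, hcon, h0, (add_zero _).symm⟩
  rw [hl] at this
  exact one_ne_zero this

end FLaw

/-- **THEOREM FL** -/
theorem false_of_FL [Finite V] (he : D.e = 0) {c : Q} (cne : c ≠ D.z)
    (k4 : ∀ z, z ≠ 0 → ETCD2.K4At D z) (hne : ∃ s, Sg D c s)
    (X : FLaw (Submodule.span (ZMod 2) {s | Sg D c s}) (Sg D c)) : False := by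
  have sd : ∀ s, Sg D c s → s ∈ Submodule.span (ZMod 2) {s | Sg D c s} :=
    fun s hs => Submodule.subset_span hs
  have nz : ¬ Sg D c 0 := by
    rintro ⟨r, hr⟩
    exact cne (hr.symm.trans (C.zero' r))
  obtain ⟨l, ⟨s, h1, h2⟩, h3⟩ := X.proper (by
    obtain ⟨s, hs⟩ := hne
    exact ⟨s, sd s hs, hs⟩) nz (by
    intro n hn
    obtain ⟨s, h1, h2⟩ := ex_shift he hne hn
    exact ⟨s, sd s h1, h1, h2⟩)
  exact false_of_HP he cne k4 sd h3 ⟨s, h1, h2⟩

end Pool.Agent.ETPT
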