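import Mathlib

/-!
**Section 3 of Theorem 88** (note 2842 of helper88; typed by helper11), combinatorial form.

`q : V → ZMod 2` is the indicator function of a set of slots in a finite space `V` over `F_2`.
From (3N) and the existence of full classes we get a quadratic form `Q` on `V` such that the slots
are the elements with `Q = 1` together with some elements of the radical.
-/

set_option autoImplicit false
set_option linter.unusedSimpArgs false
set_option linter.unnecessarySeqFocus false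
set_option linter.unusedSectionVars false

namespace Pool.Agent.ETPT.Q3

open Module

variable {V : Type*} [AddCommGroup V] [Module (ZMod 2) V]

theorem ch2 (x : V) : (2 : ℤ) • x = 0 := by
  rw [two_zsmul, ZModModule.add_self]

theorem ch3 (x : V) : (3 : ℤ) • x = x := by
  rw [show (3 : ℤ) = 2 + 1 by norm_num, add_smul, ch2, zero_add, one_smul]

theorem ch4 (x : V) : (4 : ℤ) • x = 0 := by
  rw [show (4 : ℤ) = 2 + 2 by norm_num, add_smul, ch2, zero_add]

theorem ch5 (x : V) : (5 : ℤ) • x = x := by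
  rw [show (5 : ℤ) = 4 + 1 by norm_num, add_smul, ch4, zero_add, one_smul]

theorem ch6 (x : V) : (6 : ℤ) • x = 0 := by
  rw [show (6 : ℤ) = 4 + 2 by norm_num, add_smul, ch4, ch2, zero_add]

/-- identities in an `F_2`-space -/
theorem eo {x y : V} (h : x + y = 0) : x = y := by
  have h1 : x + y + y = 0 + y := by rw [h]
  rwa [add_assoc, ZModModule.add_self, add_zero, zero_add] at h1

theorem z2 (a : ZMod 2) : a = 0 ∨ a = 1 := by revert a; decide

theorem ne0 {a : ZMod 2} (h : a ≠ 0) : a = 1 := (z2 a).resolve_left h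

theorem ne1 {a : ZMod 2} (h : a ≠ 1) : a = 0 := (z2 a).resolve_right h

theorem n01 : (0 : ZMod 2) ≠ 1 := by decide

/-- the basic hypotheses on the set of slots `q = 1` -/
structure Mx (q : V → ZMod 2) (m : ℕ) : Prop where
  n3 : ∀ s t x, q s = 1 → q t = 1 → q x = 1 → q (s + t) = 0 → q (s + x) = 0 → q (t + x) = 0 →
    q (s + t + x) = 1
  bd : ∀ Z : Submodule (ZMod 2) V, (∀ z ∈ Z, q z = 0) → finrank (ZMod 2) Z ≤ m
  full : ∀ Z : Submodule (ZMod 2) V, (∀ z ∈ Z, q z = 0) → finrank (ZMod 2) Z = m →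
    ∃ u, ∀ z ∈ Z, q (u + z) = 1
  sp : Submodule.span (ZMod 2) {v | q v = 0} = ⊤

/-- a slot avoiding subspace of maximal dimension -/
structure Av (q : V → ZMod 2) (m : ℕ) (Y : Submodule (ZMod 2) V) : Prop where
  av : ∀ y ∈ Y, q y = 0
  rk : finrank (ZMod 2) Y = m

/-- the class of `u` is full -/
def Fl (q : V → ZMod 2) (Y : Submodule (ZMod 2) V) (u : V) : Prop := ∀ y ∈ Y, q (u + y) = 1

/-- `q` is affine on the class of `v`, with linear part `f` -/
def Af (q : V → ZMod 2) (Y : Submodule (ZMod 2) V) (v : V) (f : V →ₗ[ZMod 2] ZMod 2) : Prop :=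
  ∀ y ∈ Y, q (v + y) = q v + f y

/-- the class of `v` is a coset of a hyperplane of `Y` -/
def Bd (q : V → ZMod 2) (Y : Submodule (ZMod 2) V) (v : V) (f : V →ₗ[ZMod 2] ZMod 2) : Prop :=
  Af q Y v f ∧ ∃ y ∈ Y, f y = 1

section basic

variable {q : V → ZMod 2} {m : ℕ} {Y : Submodule (ZMod 2) V}

theorem l1 (h3 : ∀ s t x, q s = 1 → q t = 1 → q x = 1 → q (s + t) = 0 → q (s + x) = 0 →
    q (t + x) = 0 → q (s + t + x) = 1) (hY : ∀ y ∈ Y, q y = 0) {u y z : V} (hy : y ∈ Y)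
    (hz : z ∈ Y) (h1 : q u = 1) (h2 : q (u + y) = 1) (h4 : q (u + z) = 1) :
    q (u + y + z) = 1 := by
  have h := h3 u (u + y) (u + z) h1 h2 h4
    (by rw [show u + (u + y) = y from eo (by abel_nf <;> simp only [ch2, ch3, ch4, ch5, ch6, add_zero, zero_add])]; exact hY y hy)
    (by rw [show u + (u + z) = z from eo (by abel_nf <;> simp only [ch2, ch3, ch4, ch5, ch6, add_zero, zero_add])]; exact hY z hz)
    (by rw [show u + y + (u + z) = y + z from eo (by abel_nf <;> simp only [ch2, ch3, ch4, ch5, ch6, add_zero, zero_add])]; exact hY _ (Y.add_mem hy hz))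
  rwa [show u + (u + y) + (u + z) = u + y + z from eo (by abel_nf <;> simp only [ch2, ch3, ch4, ch5, ch6, add_zero, zero_add])] at h

theorem mem_sup1 {a z : V} (hz : z ∈ Y ⊔ Submodule.span (ZMod 2) {a}) :
    ∃ y ∈ Y, z = y ∨ z = a + y := by
  obtain ⟨y, hy, b, hb, rfl⟩ := Submodule.mem_sup.1 hz
  obtain ⟨r, rfl⟩ := Submodule.mem_span_singleton.1 hb
  refine ⟨y, hy, ?_⟩
  rcases z2 r with rfl | rfl
  · left; rw [zero_smul, add_zero]
  · right; rw [one_smul, add_comm]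

theorem Av.slot (X : Mx q m) (hY : Av q m Y) [Finite V] {v : V} (hv : v ∉ Y) :
    ∃ y ∈ Y, q (v + y) = 1 := by
  by_contra hc
  push Not at hc
  have h1 : ∀ z ∈ Y ⊔ Submodule.span (ZMod 2) {v}, q z = 0 := by
    intro z hz
    obtain ⟨y, hy, rfl | rfl⟩ := mem_sup1 hz
    · exact hY.av _ hy
    · exact ne1 (hc y hy)
  have h2 : Y < Y ⊔ Submodule.span (ZMod 2) {v} := by
    refine lt_of_le_of_ne le_sup_left ?_
    intro h
    apply hv
    rw [h]
    exact Submodule.mem_sup_right (Submodule.mem_span_singleton_self v)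
  have h3 := Submodule.finrank_lt_finrank_of_lt h2
  have h4 := X.bd _ h1
  rw [hY.rk] at h3
  omega

theorem Af.shift {v : V} {f : V →ₗ[ZMod 2] ZMod 2} (h : Af q Y v f) {y : V} (hy : y ∈ Y) :
    Af q Y (v + y) f := by
  intro z hz
  rw [add_assoc, h _ (Y.add_mem hy hz), map_add, h y hy, add_assoc]

theorem Bd.shift {v : V} {f : V →ₗ[ZMod 2] ZMod 2} (h : Bd q Y v f) {y : V} (hy : y ∈ Y) :
    Bd q Y (v + y) f := ⟨h.1.shift hy, h.2⟩

theorem Af.uni {v : V} {f g : V →ₗ[ZMod 2] ZMod 2} (h : Af q Y v f) (h' : Af q Y v g) {y : V}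
    (hy : y ∈ Y) : f y = g y := by
  have h1 := h y hy
  rw [h' y hy] at h1
  grind

theorem Af.of_eq {v : V} {f g : V →ₗ[ZMod 2] ZMod 2} (h : Af q Y v f)
    (h' : ∀ y ∈ Y, f y = g y) : Af q Y v g := by
  intro y hy
  rw [h y hy, h' y hy]

theorem Bd.of_eq {v : V} {f g : V →ₗ[ZMod 2] ZMod 2} (h : Bd q Y v f)
    (h' : ∀ y ∈ Y, f y = g y) : Bd q Y v g := by
  obtain ⟨h1, y, hy, h2⟩ := h
  exact ⟨h1.of_eq h', y, hy, by rw [← h' y hy, h2]⟩

theorem Fl.shift {v : V} (h : Fl q Y v) {y : V} (hy : y ∈ Y) : Fl q Y (v + y) := by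
  intro z hz
  rw [add_assoc]
  exact h _ (Y.add_mem hy hz)

theorem Fl.self {v : V} (h : Fl q Y v) : q v = 1 := by
  have := h 0 Y.zero_mem
  rwa [add_zero] at this

theorem Bd.nfl {v : V} {f : V →ₗ[ZMod 2] ZMod 2} (h : Bd q Y v f) : ¬ Fl q Y v := by
  intro h1
  obtain ⟨h2, y, hy, h3⟩ := h
  have h4 := h2 y hy
  rw [h1 y hy, h1.self, h3] at h4
  revert h4
  decide

theorem Bd.nmem (hY : ∀ y ∈ Y, q y = 0) {v : V} {f : V →ₗ[ZMod 2] ZMod 2} (h : Bd q Y v f) :
    v ∉ Y := by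
  intro h1
  obtain ⟨h2, y, hy, h3⟩ := h
  have h4 := h2 y hy
  rw [hY _ (Y.add_mem h1 hy), hY _ h1, h3] at h4
  revert h4
  decide

/-- two independent functionals on `Y` -/
theorem ind2 {f g : V →ₗ[ZMod 2] ZMod 2} (hf : ∃ y ∈ Y, f y = 1) (hg : ∃ y ∈ Y, g y = 1)
    (hfg : ∃ y ∈ Y, f y ≠ g y) (a b : ZMod 2) : ∃ y ∈ Y, f y = a ∧ g y = b := by
  obtain ⟨y1, hy1, h1⟩ := hf
  obtain ⟨y2, hy2, h2⟩ := hg
  obtain ⟨y3, hy3, h3⟩ := hfg
  -- (1,0) and (0,1)
  have key : (∃ y ∈ Y, f y = 1 ∧ g y = 0) ∧ (∃ y ∈ Y, f y = 0 ∧ g y = 1) := by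
    rcases z2 (f y3) with h4 | h4
    · have h5 : g y3 = 1 := ne0 (fun h => h3 (by rw [h4, h]))
      refine ⟨?_, y3, hy3, h4, h5⟩
      rcases z2 (g y1) with h6 | h6
      · exact ⟨y1, hy1, h1, h6⟩
      · exact ⟨y1 + y3, Y.add_mem hy1 hy3, by rw [map_add, h1, h4]; rfl,
          by rw [map_add, h6, h5]; rfl⟩
    · have h5 : g y3 = 0 := ne1 (fun h => h3 (by rw [h4, h]))
      refine ⟨⟨y3, hy3, h4, h5⟩, ?_⟩
      rcases z2 (f y2) with h6 | h6
      · exact ⟨y2, hy2, h6, h2⟩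
      · exact ⟨y2 + y3, Y.add_mem hy2 hy3, by rw [map_add, h6, h4]; rfl,
          by rw [map_add, h2, h5]; rfl⟩
  obtain ⟨⟨p, hp, p1, p2⟩, ⟨r, hr, r1, r2⟩⟩ := key
  refine ⟨a • p + b • r, Y.add_mem (Y.smul_mem _ hp) (Y.smul_mem _ hr), ?_, ?_⟩
  · rw [map_add, map_smul, map_smul, p1, r1]; simp
  · rw [map_add, map_smul, map_smul, p2, r2]; simp

/-- a functional independent of `f` and `g` -/
theorem ind3 {f g h : V →ₗ[ZMod 2] ZMod 2} (hf : ∃ y ∈ Y, f y = 1) (hg : ∃ y ∈ Y, g y = 1)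
    (hfg : ∃ y ∈ Y, f y ≠ g y) (h0 : ∃ y ∈ Y, h y = 1) (h1 : ∃ y ∈ Y, h y ≠ f y)
    (h2 : ∃ y ∈ Y, h y ≠ g y) (h3 : ∃ y ∈ Y, h y ≠ f y + g y) :
    ∃ d ∈ Y, f d = 0 ∧ g d = 0 ∧ h d = 1 := by
  by_contra hc
  push Not at hc
  obtain ⟨p, hp, p1, p2⟩ := ind2 hf hg hfg 1 0
  obtain ⟨r, hr, r1, r2⟩ := ind2 hf hg hfg 0 1
  have key : ∀ y ∈ Y, h y = f y * h p + g y * h r := by
    intro y hy
    have h4 := hc (y + (f y • p + g y • r))
      (Y.add_mem hy (Y.add_mem (Y.smul_mem _ hp) (Y.smul_mem _ hr)))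
      (by simp only [map_add, map_smul, p1, r1, smul_eq_mul]; grind)
      (by simp only [map_add, map_smul, p2, r2, smul_eq_mul]; grind)
    have h5 := ne1 h4
    simp only [map_add, map_smul, smul_eq_mul] at h5
    grind
  obtain ⟨y0, hy0, e0⟩ := h0
  obtain ⟨y1, hy1, e1⟩ := h1
  obtain ⟨y2, hy2, e2⟩ := h2
  obtain ⟨y3, hy3, e3⟩ := h3
  rcases z2 (h p) with k1 | k1 <;> rcases z2 (h r) with k2 | k2
  · rw [key _ hy0, k1, k2] at e0; grind
  · apply e2; rw [key _ hy2, k1, k2]; grind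
  · apply e1; rw [key _ hy1, k1, k2]; grind
  · apply e3; rw [key _ hy3, k1, k2]; grind

end basic

section next

variable {q : V → ZMod 2} {m : ℕ} {Y : Submodule (ZMod 2) V}

theorem nfl_ex {v : V} (hv : ¬ Fl q Y v) : ∃ y ∈ Y, q (v + y) = 0 := by
  unfold Fl at hv
  push Not at hv
  obtain ⟨y, hy, h⟩ := hv
  exact ⟨y, hy, ne1 h⟩

/-- half of the next lemma (1c) -/
theorem l4a (X : Mx q m) (hY : Av q m Y) [Finite V] {u v : V} (hu : Fl q Y u)
    (hv : ¬ Fl q Y v) (hw : ¬ Fl q Y (u + v)) :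
    ∃ f, Bd q Y (u + v) f ∧ ∃ s, s + v ∈ Y ∧ q s = 1 ∧ ∀ y ∈ Y, q (s + y) = 1 → f y = 0 := by
  have hvY : v ∉ Y := fun h => hw (hu.shift h)
  have hwY : u + v ∉ Y := by
    intro h
    apply hv
    have := hu.shift h
    rwa [show u + (u + v) = v from eo (by abel_nf <;> simp only [ch2, ch3, ch4, ch5, ch6, add_zero, zero_add])] at this
  obtain ⟨y0, hy0, hs⟩ := hY.slot X hvY
  obtain ⟨y1, hy1, ha⟩ := nfl_ex hv
  let D : Submodule (ZMod 2) V :=
    { carrier := {y | y ∈ Y ∧ q (v + y0 + y) = 1}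
      add_mem' := by
        rintro y z ⟨hy, h1⟩ ⟨hz, h2⟩
        refine ⟨Y.add_mem hy hz, ?_⟩
        rw [← add_assoc]
        exact l1 X.n3 hY.av hy hz hs h1 h2
      zero_mem' := ⟨Y.zero_mem, by rw [add_zero]; exact hs⟩
      smul_mem' := by
        rintro r y ⟨hy, h1⟩
        rcases z2 r with rfl | rfl
        · rw [zero_smul]; exact ⟨Y.zero_mem, by rw [add_zero]; exact hs⟩
        · rw [one_smul]; exact ⟨hy, h1⟩ }
  have hsaY : v + y0 + (v + y1) ∈ Y := by
    rw [show v + y0 + (v + y1) = y0 + y1 from eo (by abel_nf <;> simp only [ch2, ch3, ch4, ch5, ch6, add_zero, zero_add])]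
    exact Y.add_mem hy0 hy1
  have hsa : v + y0 + (v + y1) ∉ D := by
    rintro ⟨-, h⟩
    rw [show v + y0 + (v + y0 + (v + y1)) = v + y1 from eo (by abel_nf <;> simp only [ch2, ch3, ch4, ch5, ch6, add_zero, zero_add]), ha] at h
    exact n01 h
  obtain ⟨f, hf, hD⟩ := Submodule.exists_le_ker_of_notMem hsa
  have hf1 : f (v + y0 + (v + y1)) = 1 := ne0 hf
  -- the avoiding space
  have hZ : ∀ z ∈ (Y ⊓ LinearMap.ker f) ⊔ Submodule.span (ZMod 2) {v + y1}, q z = 0 := by
    intro z hz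
    obtain ⟨y, ⟨hy, hfy⟩, rfl | rfl⟩ := mem_sup1 hz
    · exact hY.av _ hy
    · by_contra hc
      have h1 : v + y0 + (v + y1) + y ∈ D := by
        refine ⟨Y.add_mem hsaY hy, ?_⟩
        rw [show v + y0 + (v + y0 + (v + y1) + y) = v + y1 + y from eo (by abel_nf <;> simp only [ch2, ch3, ch4, ch5, ch6, add_zero, zero_add])]
        exact ne0 hc
      have h2 := hD h1
      have h3 : f y = 0 := hfy
      rw [LinearMap.mem_ker, map_add, hf1, h3] at h2
      exact n01 (by rw [← h2]; rfl)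
  have haZ : v + y1 ∈ (Y ⊓ LinearMap.ker f) ⊔ Submodule.span (ZMod 2) {v + y1} :=
    Submodule.mem_sup_right (Submodule.mem_span_singleton_self _)
  -- invariance of q on the class of u + v
  have inv1 : ∀ b, b + (u + v) ∈ Y → ∀ y ∈ Y, f y = 0 → q b = 1 → q (b + y) = 1 := by
    intro b hb y hy hfy h1
    have hyZ : y ∈ (Y ⊓ LinearMap.ker f) ⊔ Submodule.span (ZMod 2) {v + y1} :=
      Submodule.mem_sup_left ⟨hy, hfy⟩
    have e1 : b + (v + y1) = u + (b + (u + v) + y1) := eo (by abel_nf <;> simp only [ch2, ch3, ch4, ch5, ch6, add_zero, zero_add])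
    have h2 : q (b + (v + y1)) = 1 := by rw [e1]; exact hu _ (Y.add_mem hb hy1)
    have h3 : q (b + (v + y1) + y) = 1 := by
      rw [e1, add_assoc]
      exact hu _ (Y.add_mem (Y.add_mem hb hy1) hy)
    have h4 : q (b + (v + y1) + (v + y1)) = 1 := by
      rwa [show b + (v + y1) + (v + y1) = b from eo (by abel_nf <;> simp only [ch2, ch3, ch4, ch5, ch6, add_zero, zero_add])]
    have h5 := l1 X.n3 hZ hyZ haZ h2 h3 h4
    rwa [show b + (v + y1) + y + (v + y1) = b + y from eo (by abel_nf <;> simp only [ch2, ch3, ch4, ch5, ch6, add_zero, zero_add])] at h5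
  have inv : ∀ b, b + (u + v) ∈ Y → ∀ y ∈ Y, f y = 0 → q (b + y) = q b := by
    intro b hb y hy hfy
    rcases z2 (q b) with h | h
    · rcases z2 (q (b + y)) with h' | h'
      · rw [h, h']
      · have h2 := inv1 (b + y) (by
          rw [show b + y + (u + v) = b + (u + v) + y from eo (by abel_nf <;> simp only [ch2, ch3, ch4, ch5, ch6, add_zero, zero_add])]
          exact Y.add_mem hb hy) y hy hfy h'
        rw [show b + y + y = b from eo (by abel_nf <;> simp only [ch2, ch3, ch4, ch5, ch6, add_zero, zero_add]), h] at h2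
        exact absurd h2 n01
    · rw [h, inv1 b hb y hy hfy h]
  -- q is not constant
  obtain ⟨z0, hz0, k0⟩ := nfl_ex hw
  obtain ⟨z1, hz1, k1⟩ := hY.slot X hwY
  have hb0 : ∀ z ∈ Y, u + v + z + (u + v) ∈ Y := by
    intro z hz
    rwa [show u + v + z + (u + v) = z from eo (by abel_nf <;> simp only [ch2, ch3, ch4, ch5, ch6, add_zero, zero_add])]
  have hfz : f (z0 + z1) = 1 := by
    apply ne0
    intro h
    have h1 := inv (u + v + z0) (hb0 _ hz0) (z0 + z1) (Y.add_mem hz0 hz1) h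
    rw [show u + v + z0 + (z0 + z1) = u + v + z1 from eo (by abel_nf <;> simp only [ch2, ch3, ch4, ch5, ch6, add_zero, zero_add]), k1, k0] at h1
    exact n01 h1.symm
  have hAf : Af q Y (u + v + z0) f := by
    intro y hy
    rcases z2 (f y) with h | h
    · rw [h, add_zero]
      exact inv _ (hb0 _ hz0) y hy h
    · rw [h, k0, zero_add]
      have h1 := inv (u + v + z1) (hb0 _ hz1) (z0 + z1 + y)
        (Y.add_mem (Y.add_mem hz0 hz1) hy) (by rw [map_add, hfz, h]; rfl)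
      rw [show u + v + z1 + (z0 + z1 + y) = u + v + z0 + y from eo (by abel_nf <;> simp only [ch2, ch3, ch4, ch5, ch6, add_zero, zero_add]), k1] at h1
      exact h1
  refine ⟨f, ⟨?_, z0 + z1, Y.add_mem hz0 hz1, hfz⟩, v + y0, ?_, hs, ?_⟩
  · have := hAf.shift hz0
    rwa [show u + v + z0 + z0 = u + v from eo (by abel_nf <;> simp only [ch2, ch3, ch4, ch5, ch6, add_zero, zero_add])] at this
  · rwa [show v + y0 + v = y0 from eo (by abel_nf <;> simp only [ch2, ch3, ch4, ch5, ch6, add_zero, zero_add])]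
  · intro y hy h1
    exact hD ⟨hy, h1⟩

/-- the next lemma (1c) -/
theorem l4 (X : Mx q m) (hY : Av q m Y) [Finite V] {u v : V} (hu : Fl q Y u)
    (hv : ¬ Fl q Y v) (hw : ¬ Fl q Y (u + v)) :
    ∃ f, Bd q Y v f ∧ Af q Y (u + v) f := by
  obtain ⟨f, hf, -⟩ := l4a X hY hu hv hw
  obtain ⟨g, hg, s, hs, k1, k2⟩ := l4a X hY hu hw (by
    rwa [show u + (u + v) = v from eo (by abel_nf <;> simp only [ch2, ch3, ch4, ch5, ch6, add_zero, zero_add])])
  rw [show u + (u + v) = v from eo (by abel_nf <;> simp only [ch2, ch3, ch4, ch5, ch6, add_zero, zero_add])] at hg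
  refine ⟨f, hg.of_eq ?_, hf.1⟩
  have hs' : Af q Y s f := by
    have := hf.1.shift hs
    rwa [show u + v + (s + (u + v)) = s from eo (by abel_nf <;> simp only [ch2, ch3, ch4, ch5, ch6, add_zero, zero_add])] at this
  have k3 : ∀ y ∈ Y, f y = 0 → g y = 0 := by
    intro y hy h
    apply k2 y hy
    rw [hs' y hy, k1, h]; rfl
  obtain ⟨y1, hy1, h1⟩ := hg.2
  have h2 : f y1 = 1 := by
    apply ne0
    intro h
    rw [k3 _ hy1 h] at h1
    exact n01 h1
  intro y hy
  rcases z2 (f y) with h | h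
  · rw [h, k3 _ hy h]
  · have h3 := k3 (y + y1) (Y.add_mem hy hy1) (by rw [map_add, h, h2]; rfl)
    rw [map_add, h1] at h3
    rw [h]
    grind

/-- (3a): different linear parts add -/
theorem l6 (X : Mx q m) (hY : Av q m Y) [Finite V] {v w : V} {f g : V →ₗ[ZMod 2] ZMod 2}
    (hv : Bd q Y v f) (hw : Bd q Y w g) (hfg : ∃ y ∈ Y, f y ≠ g y) :
    Af q Y (v + w) (f + g) := by
  have huY : v + w ∉ Y := by
    intro h
    have h1 := hv.1.shift h
    rw [show v + (v + w) = w from eo (by abel_nf <;> simp only [ch2, ch3, ch4, ch5, ch6, add_zero, zero_add])] at h1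
    obtain ⟨y, hy, h2⟩ := hfg
    exact h2 (h1.uni hw.1 hy)
  have i2 := ind2 hv.2 hw.2 hfg
  -- (i)
  have p1 : ∀ c, c + (v + w) ∈ Y → q c = 1 → ∀ d ∈ Y, f d = 1 → g d = 1 → q (c + d) = 1 := by
    intro c hc hqc d hd hf hg
    have he : c + (v + w) + d ∈ Y := Y.add_mem hc hd
    obtain ⟨y1, hy1, a1, a2⟩ := i2 (1 + q v) (1 + q w + g (c + (v + w) + d))
    have e1 : q (v + y1) = 1 := by rw [hv.1 _ hy1, a1]; grind
    have e2 : q (w + (y1 + (c + (v + w) + d))) = 1 := by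
      rw [hw.1 _ (Y.add_mem hy1 he), map_add, a2]; grind
    have e3 : v + y1 + (w + (y1 + (c + (v + w) + d))) = c + d := eo (by abel_nf <;> simp only [ch2, ch3, ch4, ch5, ch6, add_zero, zero_add])
    by_contra hcd
    have hcd0 : q (c + d) = 0 := ne1 hcd
    have h1 := X.n3 (v + y1) (w + (y1 + (c + (v + w) + d))) c e1 e2 hqc
      (by rw [e3]; exact hcd0)
      (by
        rw [show v + y1 + c = w + (y1 + (c + (v + w) + d)) + d from eo (by abel_nf <;> simp only [ch2, ch3, ch4, ch5, ch6, add_zero, zero_add]),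
          (hw.1.shift (Y.add_mem hy1 he)) d hd, e2, hg]; rfl)
      (by
        rw [show w + (y1 + (c + (v + w) + d)) + c = v + y1 + d from eo (by abel_nf <;> simp only [ch2, ch3, ch4, ch5, ch6, add_zero, zero_add]),
          (hv.1.shift hy1) d hd, e1, hf]; rfl)
    rw [e3, show c + d + c = d from eo (by abel_nf <;> simp only [ch2, ch3, ch4, ch5, ch6, add_zero, zero_add]), hY.av d hd] at h1
    exact n01 h1
  obtain ⟨d1, hd1, b1, b2⟩ := i2 1 1
  have p2 : ∀ c, c + (v + w) ∈ Y → q c = 1 → ∀ d ∈ Y, f d + g d = 0 → q (c + d) = 1 := by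
    intro c hc hqc d hd hfg0
    rcases z2 (f d) with h | h
    · have hg0 : g d = 0 := by rw [h, zero_add] at hfg0; exact hfg0
      have h1 := p1 c hc hqc d1 hd1 b1 b2
      have h2 := p1 (c + d1) (by
        rw [show c + d1 + (v + w) = c + (v + w) + d1 from eo (by abel_nf <;> simp only [ch2, ch3, ch4, ch5, ch6, add_zero, zero_add])]
        exact Y.add_mem hc hd1) h1 (d1 + d) (Y.add_mem hd1 hd)
        (by rw [map_add, b1, h]; rfl) (by rw [map_add, b2, hg0]; rfl)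
      rwa [show c + d1 + (d1 + d) = c + d from eo (by abel_nf <;> simp only [ch2, ch3, ch4, ch5, ch6, add_zero, zero_add])] at h2
    · have hg1 : g d = 1 := by rw [h] at hfg0; grind
      exact p1 c hc hqc d hd h hg1
  -- not full
  have p3 : ¬ Fl q Y (v + w) := by
    intro h
    obtain ⟨k, hk1, hk2⟩ := l4 X hY (v := v) h hv.nfl (by
      rw [show v + w + v = w from eo (by abel_nf <;> simp only [ch2, ch3, ch4, ch5, ch6, add_zero, zero_add])]; exact hw.nfl)
    rw [show v + w + v = w from eo (by abel_nf <;> simp only [ch2, ch3, ch4, ch5, ch6, add_zero, zero_add])] at hk2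
    obtain ⟨y, hy, h2⟩ := hfg
    exact h2 (by rw [hv.1.uni hk1.1 hy, hw.1.uni hk2 hy])
  obtain ⟨z0, hz0, k0⟩ := hY.slot X huY
  have hc0 : v + w + z0 + (v + w) ∈ Y := by
    rwa [show v + w + z0 + (v + w) = z0 from eo (by abel_nf <;> simp only [ch2, ch3, ch4, ch5, ch6, add_zero, zero_add])]
  have hAf : Af q Y (v + w + z0) (f + g) := by
    intro d hd
    rw [LinearMap.add_apply, k0]
    rcases z2 (f d + g d) with h | h
    · rw [h, add_zero]
      exact p2 _ hc0 k0 d hd h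
    · rw [h, show (1 : ZMod 2) + 1 = 0 from rfl]
      by_contra hc
      have hc1 : q (v + w + z0 + d) = 1 := ne0 hc
      apply p3
      intro y hy
      rcases z2 (f (y + z0) + g (y + z0)) with h' | h'
      · have := p2 _ hc0 k0 (y + z0) (Y.add_mem hy hz0) h'
        rwa [show v + w + z0 + (y + z0) = v + w + y from eo (by abel_nf <;> simp only [ch2, ch3, ch4, ch5, ch6, add_zero, zero_add])] at this
      · have := p2 (v + w + z0 + d) (by
          rw [show v + w + z0 + d + (v + w) = z0 + d from eo (by abel_nf <;> simp only [ch2, ch3, ch4, ch5, ch6, add_zero, zero_add])]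
          exact Y.add_mem hz0 hd) hc1 (y + z0 + d) (Y.add_mem (Y.add_mem hy hz0) hd) (by
            rw [map_add f (y + z0) d, map_add g (y + z0) d]; grind)
        rwa [show v + w + z0 + d + (y + z0 + d) = v + w + y from eo (by abel_nf <;> simp only [ch2, ch3, ch4, ch5, ch6, add_zero, zero_add])] at this
  have := hAf.shift hz0
  rwa [show v + w + z0 + z0 = v + w from eo (by abel_nf <;> simp only [ch2, ch3, ch4, ch5, ch6, add_zero, zero_add])] at this

end next

section three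

variable {q : V → ZMod 2} {m : ℕ} {Y : Submodule (ZMod 2) V}

/-- induction: a property of all nonslots which is stable under sums -/
theorem sp_ind (X : Mx q m) {P : V → Prop} (h0 : P 0) (h1 : ∀ x, q x = 0 → P x)
    (h2 : ∀ x y, P x → P y → P (x + y)) (x : V) : P x := by
  have hx : x ∈ Submodule.span (ZMod 2) {v | q v = 0} := by rw [X.sp]; trivial
  induction hx using Submodule.span_induction with
  | mem x hx => exact h1 x hx
  | zero => exact h0
  | add x y _ _ hx hy => exact h2 _ _ hx hy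
  | smul r x _ hx =>
    rcases z2 r with rfl | rfl
    · rwa [zero_smul]
    · rwa [one_smul]

theorem nfl_of_z {v : V} (h : q v = 0) : ¬ Fl q Y v := by
  intro h1
  rw [h1.self] at h
  exact n01 h.symm

/-- existence: a full class which is the sum of two classes with the same functional -/
theorem l7 (X : Mx q m) (hY : Av q m Y) [Finite V] :
    ∃ u v f, Fl q Y u ∧ Bd q Y v f ∧ Af q Y (u + v) f := by
  by_contra hc
  push Not at hc
  obtain ⟨u, hu⟩ := X.full Y hY.av hY.rk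
  have h := sp_ind X (P := fun x => ∀ u, Fl q Y u → Fl q Y (u + x)) (by
      intro u hu; rwa [add_zero]) (by
      intro x hx u hu
      by_contra h1
      obtain ⟨f, h2, h3⟩ := l4 X hY hu (nfl_of_z hx) h1
      exact hc u x f hu h2 h3) (by
      intro x y hx hy u hu
      rw [← add_assoc]
      exact hy _ (hx _ hu)) u u hu
  rw [ZModModule.add_self] at h
  have h1 := h.self
  rw [hY.av 0 Y.zero_mem] at h1
  exact n01 h1

/-- at least two functionals -/
def J2 (q : V → ZMod 2) (Y : Submodule (ZMod 2) V) : Prop :=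
  ∀ f : V →ₗ[ZMod 2] ZMod 2, ∃ v g, Bd q Y v g ∧ ∃ y ∈ Y, f y ≠ g y

theorem J2.mk {v w : V} {f g : V →ₗ[ZMod 2] ZMod 2} (hv : Bd q Y v f) (hw : Bd q Y w g)
    (hfg : ∃ y ∈ Y, f y ≠ g y) : J2 q Y := by
  intro h
  by_cases h1 : ∃ y ∈ Y, h y ≠ f y
  · exact ⟨v, f, hv, h1⟩
  · push Not at h1
    obtain ⟨y, hy, h2⟩ := hfg
    exact ⟨w, g, hw, y, hy, by rw [h1 y hy]; exact h2⟩

theorem ne_symm' {f g : V →ₗ[ZMod 2] ZMod 2} (h : ∃ y ∈ Y, f y ≠ g y) : ∃ y ∈ Y, g y ≠ f y := by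
  obtain ⟨y, hy, h1⟩ := h
  exact ⟨y, hy, fun h2 => h1 h2.symm⟩

theorem add_ne {f g : V →ₗ[ZMod 2] ZMod 2} (h : ∃ y ∈ Y, f y ≠ g y) :
    ∃ y ∈ Y, (f + g) y = 1 := by
  obtain ⟨y, hy, h1⟩ := h
  refine ⟨y, hy, ?_⟩
  rw [LinearMap.add_apply]
  revert h1
  generalize f y = a
  generalize g y = b
  revert a b
  decide

/-- (3a), second half -/
theorem l8 (X : Mx q m) (hY : Av q m Y) [Finite V] (hJ : J2 q Y) {v w : V}
    {f g : V →ₗ[ZMod 2] ZMod 2} (hv : Bd q Y v f) (hw : Bd q Y w g)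
    (hfg : ∀ y ∈ Y, f y = g y) {h : V →ₗ[ZMod 2] ZMod 2} (hh : Bd q Y (v + w) h) : False := by
  have hw' : Bd q Y w f := hw.of_eq (fun y hy => (hfg y hy).symm)
  by_cases h1 : ∃ y ∈ Y, f y ≠ h y
  · have h2 := l6 X hY hv hh h1
    rw [show v + (v + w) = w from eo (by abel_nf <;> simp only [ch2, ch3, ch4, ch5, ch6, add_zero, zero_add])] at h2
    obtain ⟨y, hy, h3⟩ := hh.2
    have h4 := h2.uni hw'.1 hy
    rw [LinearMap.add_apply, h3] at h4
    grind
  · push Not at h1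
    have hh' : Bd q Y (v + w) f := hh.of_eq (fun y hy => (h1 y hy).symm)
    obtain ⟨v', g', hv', hg'⟩ := hJ f
    have h2 := l6 X hY hv hv' hg'
    have h3 : Bd q Y (v + v') (f + g') := ⟨h2, add_ne hg'⟩
    have h4 := l6 X hY h3 hw' (by
      obtain ⟨y, hy, h⟩ := hv'.2
      refine ⟨y, hy, ?_⟩
      rw [LinearMap.add_apply, h]
      intro h5
      grind)
    have h5 := l6 X hY hh' hv' hg'
    rw [show v + v' + w = v + w + v' from eo (by abel_nf <;> simp only [ch2, ch3, ch4, ch5, ch6, add_zero, zero_add])] at h4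
    obtain ⟨y, hy, h⟩ := hv.2
    have h6 := h4.uni h5 hy
    rw [LinearMap.add_apply, LinearMap.add_apply, h] at h6
    grind

/-- (3b), first step -/
theorem l9a (X : Mx q m) (hY : Av q m Y) [Finite V] {v w b : V}
    {f h : V →ₗ[ZMod 2] ZMod 2} (hv : Bd q Y v f) (hw : Fl q Y w) (hvw : Fl q Y (v + w))
    (hb : Bd q Y b h) (hfh : ∃ y ∈ Y, f y ≠ h y) : Fl q Y (w + b) := by
  by_contra hc
  obtain ⟨k, hk1, hk2⟩ := l4 X hY hw hb.nfl hc
  have e1 : ∀ y ∈ Y, k y = h y := fun y hy => hk1.1.uni hb.1 hy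
  have hwb : Bd q Y (w + b) h := (show Bd q Y (w + b) k from ⟨hk2, hk1.2⟩).of_eq e1
  have h1 := l6 X hY hv hwb hfh
  have h2 : Bd q Y (v + (w + b)) (f + h) := ⟨h1, add_ne hfh⟩
  rw [show v + (w + b) = v + w + b from eo (by abel_nf <;> simp only [ch2, ch3, ch4, ch5, ch6, add_zero, zero_add])] at h2
  obtain ⟨l, hl1, hl2⟩ := l4 X hY hvw hb.nfl h2.nfl
  obtain ⟨y, hy, hfy⟩ := hv.2
  have h3 := hl2.uni h2.1 hy
  have h4 := hl1.1.uni hb.1 hy
  rw [LinearMap.add_apply, hfy] at h3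
  grind

theorem l9b (X : Mx q m) (hY : Av q m Y) [Finite V] (hJ : J2 q Y) {v w b : V}
    {f : V →ₗ[ZMod 2] ZMod 2} (hv : Bd q Y v f) (hw : Fl q Y w) (hvw : Fl q Y (v + w))
    (hb : ¬ Fl q Y b) : Fl q Y (w + b) := by
  by_contra hc
  obtain ⟨k, hk1, hk2⟩ := l4 X hY hw hb hc
  by_cases h1 : ∃ y ∈ Y, f y ≠ k y
  · exact hc (l9a X hY hv hw hvw hk1 h1)
  · push Not at h1
    obtain ⟨b', g, hb', hg⟩ := hJ f
    have h2 := l9a X hY hv hw hvw hb' hg
    rw [add_comm] at h2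
    refine hc (l9a X hY hb' hw h2 hk1 ?_)
    obtain ⟨y, hy, h3⟩ := hg
    exact ⟨y, hy, fun h4 => h3 (by rw [h1 y hy, h4])⟩

/-- (3b): a full class and a class with functional `f` -/
theorem l9c (X : Mx q m) (hY : Av q m Y) [Finite V] (hJ : J2 q Y) {v w : V}
    {f : V →ₗ[ZMod 2] ZMod 2} (hv : Bd q Y v f) (hw : Fl q Y w) : ¬ Fl q Y (v + w) := by
  intro hvw
  have h := sp_ind X (P := fun x => ∀ w, Fl q Y w → (∃ v f, Bd q Y v f ∧ Fl q Y (v + w)) →
      Fl q Y (w + x) ∧ ∃ v f, Bd q Y v f ∧ Fl q Y (v + (w + x))) (by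
      intro w hw h1
      rw [add_zero]; exact ⟨hw, h1⟩) (by
      rintro x hx w hw ⟨v, f, h1, h2⟩
      have hnx : ¬ Fl q Y x := nfl_of_z hx
      refine ⟨l9b X hY hJ h1 hw h2 hnx, ?_⟩
      by_cases h3 : ∃ h, Bd q Y x h
      · obtain ⟨h, h3⟩ := h3
        exact ⟨x, h, h3, by rwa [show x + (w + x) = w from eo (by abel_nf <;> simp only [ch2, ch3, ch4, ch5, ch6, add_zero, zero_add])]⟩
      · refine ⟨v, f, h1, ?_⟩
        by_contra h4
        rw [show v + (w + x) = v + w + x from eo (by abel_nf <;> simp only [ch2, ch3, ch4, ch5, ch6, add_zero, zero_add])] at h4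
        obtain ⟨h, h5, -⟩ := l4 X hY h2 hnx h4
        exact h3 ⟨h, h5⟩) (by
      intro x y hx hy w hw h1
      obtain ⟨h2, h3⟩ := hx w hw h1
      have h4 := hy _ h2 h3
      rwa [add_assoc] at h4) w w hw ⟨v, f, hv, hvw⟩
  have h1 := h.1
  rw [ZModModule.add_self] at h1
  have h2 := h1.self
  rw [hY.av 0 Y.zero_mem] at h2
  exact n01 h2

theorem l9 (X : Mx q m) (hY : Av q m Y) [Finite V] (hJ : J2 q Y) {v w : V}
    {f : V →ₗ[ZMod 2] ZMod 2} (hv : Bd q Y v f) (hw : Fl q Y w) : Af q Y (v + w) f := by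
  have h1 := l9c X hY hJ hv hw
  obtain ⟨k, hk1, hk2⟩ := l4 X hY hw hv.nfl (by rwa [add_comm])
  rw [add_comm v w]
  exact hk2.of_eq (fun y hy => hk1.1.uni hv.1 hy)

/-- (3c): the remaining classes -/
theorem l10i (X : Mx q m) (hY : Av q m Y) [Finite V] (hJ : J2 q Y) {v w : V}
    {f : V →ₗ[ZMod 2] ZMod 2} (hv : Bd q Y v f) (hw2 : ¬ ∃ h, Bd q Y w h) :
    ¬ Fl q Y (v + w) := by
  intro h
  have h1 := l9 X hY hJ hv h
  rw [show v + (v + w) = w from eo (by abel_nf <;> simp only [ch2, ch3, ch4, ch5, ch6, add_zero, zero_add])] at h1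
  exact hw2 ⟨f, h1, hv.2⟩

theorem l10r (X : Mx q m) (hY : Av q m Y) [Finite V] {v w : V}
    {f h : V →ₗ[ZMod 2] ZMod 2} (hv : Bd q Y v f) (hw2 : ¬ ∃ h, Bd q Y w h)
    (hh : Bd q Y (v + w) h) : ∀ y ∈ Y, h y = f y := by
  by_contra hc
  push Not at hc
  have h1 := l6 X hY hh hv hc
  rw [show v + w + v = w from eo (by abel_nf <;> simp only [ch2, ch3, ch4, ch5, ch6, add_zero, zero_add])] at h1
  exact hw2 ⟨_, h1, add_ne hc⟩

theorem l10b (X : Mx q m) (hY : Av q m Y) [Finite V] {v v2 w : V}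
    {f g : V →ₗ[ZMod 2] ZMod 2} (hv : Bd q Y v f) (hw2 : ¬ ∃ h, Bd q Y w h)
    (h1 : ¬ ∃ h, Bd q Y (v + w) h) (hv2 : Bd q Y v2 g) (hfg : ∃ y ∈ Y, f y ≠ g y) :
    ¬ ∃ h, Bd q Y (v2 + w) h := by
  rintro ⟨h, hh⟩
  have h2 := l10r X hY hv2 hw2 hh
  have h3 : Bd q Y (v2 + w) g := hh.of_eq h2
  have h4 := l6 X hY hv h3 hfg
  rw [show v + (v2 + w) = v2 + (v + w) from eo (by abel_nf <;> simp only [ch2, ch3, ch4, ch5, ch6, add_zero, zero_add])] at h4
  have h5 := l10r X hY hv2 h1 (show Bd q Y (v2 + (v + w)) (f + g) from ⟨h4, add_ne hfg⟩)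
  obtain ⟨y, hy, h6⟩ := hv.2
  have h7 := h5 y hy
  rw [LinearMap.add_apply, h6] at h7
  grind

/-- (3c), first part -/
theorem l10 (X : Mx q m) (hY : Av q m Y) [Finite V] (hJ : J2 q Y) {v w : V}
    {f : V →ₗ[ZMod 2] ZMod 2} (hv : Bd q Y v f) (hw2 : ¬ ∃ h, Bd q Y w h) :
    Af q Y (v + w) f := by
  by_cases hex : ∃ h, Bd q Y (v + w) h
  · obtain ⟨h, hh⟩ := hex
    exact hh.1.of_eq (l10r X hY hv hw2 hh)
  · exfalso
    have all : ∀ v3 f3, Bd q Y v3 f3 → ¬ ∃ h, Bd q Y (v3 + w) h := by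
      intro v3 f3 h3
      by_cases h4 : ∃ y ∈ Y, f y ≠ f3 y
      · exact l10b X hY hv hw2 hex h3 h4
      · push Not at h4
        obtain ⟨v2, g, h5, h6⟩ := hJ f
        refine l10b X hY h5 hw2 (l10b X hY hv hw2 hex h5 h6) h3 ?_
        obtain ⟨y, hy, h7⟩ := h6
        exact ⟨y, hy, fun h8 => h7 (by rw [h4 y hy, h8])⟩
    obtain ⟨u, v1, f1, hu, h1, h2⟩ := l7 X hY
    have h3 : Bd q Y (u + v1) f1 := ⟨h2, h1.2⟩
    have h4 : ¬ Fl q Y (v1 + w) := l10i X hY hJ h1 hw2
    have h5 : ¬ Fl q Y (u + v1 + w) := l10i X hY hJ h3 hw2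
    rw [add_assoc] at h5
    obtain ⟨k, hk, -⟩ := l4 X hY hu h4 h5
    exact all v1 f1 h1 ⟨k, hk⟩

/-- (3c), second part: adding a slot of a remaining class -/
theorem l10s (X : Mx q m) (hY : Av q m Y) [Finite V] (hJ : J2 q Y) {v w : V}
    {f : V →ₗ[ZMod 2] ZMod 2} (hv : Bd q Y v f) (hw1 : ¬ Fl q Y w) (hw2 : ¬ ∃ h, Bd q Y w h)
    (hqw : q w = 1) : q (v + w) = q v := by
  have hvw := l10 X hY hJ hv hw2
  -- it is enough to treat slots
  have key : ∀ a, a + v ∈ Y → q a = 1 → q (a + w) = 1 := by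
    intro a ha h1
    have hAa : Af q Y a f := by
      have := hv.1.shift ha
      rwa [show v + (a + v) = a from eo (by abel_nf <;> simp only [ch2, ch3, ch4, ch5, ch6, add_zero, zero_add])] at this
    have hAaw : Af q Y (a + w) f := by
      have := hvw.shift ha
      rwa [show v + w + (a + v) = a + w from eo (by abel_nf <;> simp only [ch2, ch3, ch4, ch5, ch6, add_zero, zero_add])] at this
    by_contra hc
    have hc0 : q (a + w) = 0 := ne1 hc
    have k1 : ∀ y ∈ Y, f y = 1 → q (w + y) = 1 := by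
      intro y hy hfy
      by_contra hc1
      have hc2 : q (w + y) = 0 := ne1 hc1
      have h2 := X.n3 a w (a + w + y) h1 hqw (by rw [hAaw y hy, hc0, hfy]; rfl) hc0
        (by rwa [show a + (a + w + y) = w + y from eo (by abel_nf <;> simp only [ch2, ch3, ch4, ch5, ch6, add_zero, zero_add])])
        (by rw [show w + (a + w + y) = a + y from eo (by abel_nf <;> simp only [ch2, ch3, ch4, ch5, ch6, add_zero, zero_add]), hAa y hy, h1, hfy]; rfl)
      rw [show a + w + (a + w + y) = y from eo (by abel_nf <;> simp only [ch2, ch3, ch4, ch5, ch6, add_zero, zero_add]), hY.av y hy] at h2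
      exact n01 h2
    apply hw1
    intro y hy
    rcases z2 (f y) with h | h
    · obtain ⟨d, hd, hfd⟩ := hv.2
      have h2 := k1 (y + d) (Y.add_mem hy hd) (by rw [map_add, h, hfd]; rfl)
      have h3 := k1 d hd hfd
      have h4 := l1 X.n3 hY.av (Y.add_mem hy hd) hd hqw h2 h3
      rwa [show w + (y + d) + d = w + y from eo (by abel_nf <;> simp only [ch2, ch3, ch4, ch5, ch6, add_zero, zero_add])] at h4
    · exact k1 y hy h
  obtain ⟨d, hd, hfd⟩ := hv.2
  rcases z2 (q v) with h | h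
  · have h1 := key (v + d) (by rwa [show v + d + v = d from eo (by abel_nf <;> simp only [ch2, ch3, ch4, ch5, ch6, add_zero, zero_add])])
      (by rw [hv.1 d hd, h, hfd]; rfl)
    rw [show v + d + w = v + w + d from eo (by abel_nf <;> simp only [ch2, ch3, ch4, ch5, ch6, add_zero, zero_add]), hvw d hd, hfd] at h1
    rw [h]
    grind
  · rw [h]
    exact key v (by rw [ZModModule.add_self]; exact Y.zero_mem) h

/-- every class outside the classes with a functional: the functional is unchanged -/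
theorem l11 (X : Mx q m) (hY : Av q m Y) [Finite V] (hJ : J2 q Y) {a x : V}
    {f : V →ₗ[ZMod 2] ZMod 2} (ha : Bd q Y a f) (hx : ¬ ∃ h, Bd q Y x h) :
    Bd q Y (a + x) f := ⟨l10 X hY hJ ha hx, ha.2⟩

theorem l12 (X : Mx q m) (hY : Av q m Y) [Finite V] (hJ : J2 q Y) {x : V}
    (hx1 : ¬ Fl q Y x) (hx2 : ¬ ∃ h, Bd q Y x h) :
    ∃ y0 ∈ Y, ∀ a f, Bd q Y a f → q (a + x) = q a + f y0 := by
  by_cases hxY : x ∈ Y
  · exact ⟨x, hxY, fun a f ha => ha.1 x hxY⟩
  · obtain ⟨y0, hy0, h0⟩ := hY.slot X hxY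
    refine ⟨y0, hy0, fun a f ha => ?_⟩
    have h1 : ¬ Fl q Y (x + y0) := by
      intro h
      apply hx1
      have := h.shift hy0
      rwa [show x + y0 + y0 = x from eo (by abel_nf <;> simp only [ch2, ch3, ch4, ch5, ch6, add_zero, zero_add])] at this
    have h2 : ¬ ∃ h, Bd q Y (x + y0) h := by
      rintro ⟨h, hh⟩
      apply hx2
      refine ⟨h, ?_⟩
      have := hh.shift hy0
      rwa [show x + y0 + y0 = x from eo (by abel_nf <;> simp only [ch2, ch3, ch4, ch5, ch6, add_zero, zero_add])] at this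
    have h3 := l10s X hY hJ ha h1 h2 h0
    have h4 := (l11 X hY hJ ha hx2).1 y0 hy0
    rw [add_assoc, h3] at h4
    rw [h4]
    grind

end three

section four

variable {q : V → ZMod 2} {m : ℕ} {Y : Submodule (ZMod 2) V}

theorem rk1 [Finite V] {W : Submodule (ZMod 2) V} {a : V} (ha : a ∉ W) :
    finrank (ZMod 2) (W ⊔ Submodule.span (ZMod 2) {a} : Submodule (ZMod 2) V)
      = finrank (ZMod 2) W + 1 := by
  have h0 : a ≠ 0 := by rintro rfl; exact ha W.zero_mem
  have h1 : W ⊓ Submodule.span (ZMod 2) {a} = ⊥ := by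
    rw [eq_bot_iff]
    rintro z ⟨hz, hz2⟩
    obtain ⟨r, rfl⟩ := Submodule.mem_span_singleton.1 hz2
    rcases z2 r with rfl | rfl
    · rw [zero_smul]; exact Submodule.zero_mem _
    · rw [one_smul] at hz; exact absurd hz ha
  have h2 := Submodule.finrank_sup_add_finrank_inf_eq W (Submodule.span (ZMod 2) {a})
  rw [h1, finrank_bot, finrank_span_singleton h0, add_zero] at h2
  exact h2

theorem rk2 [Finite V] {W : Submodule (ZMod 2) V} {f : V →ₗ[ZMod 2] ZMod 2} {y : V}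
    (hy : y ∈ W) (hf : f y = 1) :
    finrank (ZMod 2) (W ⊓ LinearMap.ker f : Submodule (ZMod 2) V) + 1 = finrank (ZMod 2) W := by
  have h1 : y ∉ W ⊓ LinearMap.ker f := by
    rintro ⟨-, h⟩
    rw [SetLike.mem_coe, LinearMap.mem_ker, hf] at h
    exact n01 h.symm
  have h2 : (W ⊓ LinearMap.ker f) ⊔ Submodule.span (ZMod 2) {y} = W := by
   apply le_antisymm
   · refine sup_le inf_le_left ?_
     rw [Submodule.span_singleton_le_iff_mem]
     exact hy
   · intro z hz
     rcases z2 (f z) with h | h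
     · exact Submodule.mem_sup_left ⟨hz, h⟩
     · rw [show z = (z + y) + y from eo (by abel_nf <;> simp only [ch2, ch3, ch4, ch5, ch6, add_zero, zero_add])]
       refine Submodule.add_mem _ (Submodule.mem_sup_left ⟨W.add_mem hz hy, ?_⟩)
         (Submodule.mem_sup_right (Submodule.mem_span_singleton_self y))
       rw [SetLike.mem_coe, LinearMap.mem_ker, map_add, h, hf]
       rfl
  rw [← rk1 h1, h2]

/-- the core of (3d) -/
theorem l13c (X : Mx q m) (hY : Av q m Y) [Finite V] {a b x : V}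
    {f g : V →ₗ[ZMod 2] ZMod 2} (ha : Bd q Y a f) (hb : Bd q Y b g)
    (hfg : ∃ y ∈ Y, f y ≠ g y) (qa : q a = 0) (qb : q b = 0) (qab : q (a + b) = 0)
    (hx : Fl q Y x) : q (a + x) + q (b + x) + q (a + b + x) = 1 := by
  have hab : Bd q Y (a + b) (f + g) := ⟨l6 X hY ha hb hfg, add_ne hfg⟩
  obtain ⟨y1, hy1, a1, a2⟩ := ind2 ha.2 hb.2 hfg 1 0
  obtain ⟨y2, hy2, b1, b2⟩ := ind2 ha.2 hb.2 hfg 0 1
  -- the space D
  have hD : ∀ d ∈ Y ⊓ LinearMap.ker f ⊓ LinearMap.ker g, d ∈ Y ∧ f d = 0 ∧ g d = 0 := by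
    rintro d ⟨⟨h1, h2⟩, h3⟩
    exact ⟨h1, h2, h3⟩
  have nb : b ∉ Y ⊓ LinearMap.ker f ⊓ LinearMap.ker g := fun h => hb.nmem hY.av (hD b h).1
  have na : a ∉ Y ⊓ LinearMap.ker f ⊓ LinearMap.ker g := fun h => ha.nmem hY.av (hD a h).1
  have nab : a ∉ (Y ⊓ LinearMap.ker f ⊓ LinearMap.ker g) ⊔ Submodule.span (ZMod 2) {b} := by
    intro h
    obtain ⟨d, hd, h1 | h1⟩ := mem_sup1 h
    · exact na (by rw [h1]; exact hd)
    · apply hab.nmem hY.av
      rw [show a + b = d from by rw [h1]; exact eo (by abel_nf <;> simp only [ch2, ch3, ch4, ch5, ch6, add_zero, zero_add])]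
      exact (hD d hd).1
  have nba : b ∉ (Y ⊓ LinearMap.ker f ⊓ LinearMap.ker g) ⊔ Submodule.span (ZMod 2) {a} := by
    intro h
    obtain ⟨d, hd, h1 | h1⟩ := mem_sup1 h
    · exact nb (by rw [h1]; exact hd)
    · apply hab.nmem hY.av
      rw [show a + b = d from by rw [h1]; exact eo (by abel_nf <;> simp only [ch2, ch3, ch4, ch5, ch6, add_zero, zero_add])]
      exact (hD d hd).1
  have hZm : ∀ z ∈ (Y ⊓ LinearMap.ker f ⊓ LinearMap.ker g) ⊔ Submodule.span (ZMod 2) {b} ⊔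
      Submodule.span (ZMod 2) {a}, ∃ d ∈ Y, f d = 0 ∧ g d = 0 ∧
        d ∈ (Y ⊓ LinearMap.ker f ⊓ LinearMap.ker g) ∧
        (z = d ∨ z = b + d ∨ z = a + d ∨ z = a + b + d) := by
    intro z hz
    obtain ⟨y, hy, h1⟩ := mem_sup1 hz
    obtain ⟨d, hd, h2⟩ := mem_sup1 hy
    obtain ⟨k1, k2, k3⟩ := hD d hd
    refine ⟨d, k1, k2, k3, hd, ?_⟩
    rcases h1 with rfl | rfl <;> rcases h2 with rfl | rfl
    · left; rfl
    · right; left; rfl
    · right; right; left; rfl
    · right; right; right; rw [add_assoc]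
  have hZ : Av q m ((Y ⊓ LinearMap.ker f ⊓ LinearMap.ker g) ⊔ Submodule.span (ZMod 2) {b} ⊔
      Submodule.span (ZMod 2) {a}) := by
    constructor
    · intro z hz
      obtain ⟨d, hd, k1, k2, -, rfl | rfl | rfl | rfl⟩ := hZm z hz
      · exact hY.av _ hd
      · rw [hb.1 d hd, qb, k2]; rfl
      · rw [ha.1 d hd, qa, k1]; rfl
      · rw [hab.1 d hd, qab, LinearMap.add_apply, k1, k2]; rfl
    · rw [rk1 nab, rk1 nb]
      have e1 := rk2 hy1 a1
      have e2 := rk2 (W := Y ⊓ LinearMap.ker f) (f := g) (y := y2) ⟨hy2, b1⟩ b2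
      rw [e2, e1, hY.rk]
  -- the two functionals
  obtain ⟨A, hA, hA2⟩ := Submodule.exists_le_ker_of_notMem nab
  obtain ⟨B, hB, hB2⟩ := Submodule.exists_le_ker_of_notMem nba
  have A1 : A a = 1 := ne0 hA
  have B1 : B b = 1 := ne0 hB
  have A2 : A b = 0 := hA2 (Submodule.mem_sup_right (Submodule.mem_span_singleton_self b))
  have B2 : B a = 0 := hB2 (Submodule.mem_sup_right (Submodule.mem_span_singleton_self a))
  have A3 : ∀ d ∈ Y ⊓ LinearMap.ker f ⊓ LinearMap.ker g, A d = 0 :=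
    fun d hd => hA2 (Submodule.mem_sup_left hd)
  have B3 : ∀ d ∈ Y ⊓ LinearMap.ker f ⊓ LinearMap.ker g, B d = 0 :=
    fun d hd => hB2 (Submodule.mem_sup_left hd)
  have haZ : a ∈ (Y ⊓ LinearMap.ker f ⊓ LinearMap.ker g) ⊔ Submodule.span (ZMod 2) {b} ⊔
      Submodule.span (ZMod 2) {a} :=
    Submodule.mem_sup_right (Submodule.mem_span_singleton_self a)
  have hbZ : b ∈ (Y ⊓ LinearMap.ker f ⊓ LinearMap.ker g) ⊔ Submodule.span (ZMod 2) {b} ⊔
      Submodule.span (ZMod 2) {a} :=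
    Submodule.mem_sup_left (Submodule.mem_sup_right (Submodule.mem_span_singleton_self b))
  generalize hZe : (Y ⊓ LinearMap.ker f ⊓ LinearMap.ker g) ⊔ Submodule.span (ZMod 2) {b} ⊔
      Submodule.span (ZMod 2) {a} = Z at hZm hZ haZ hbZ
  have BdA : Bd q Z y1 A := by
    refine ⟨?_, a, haZ, A1⟩
    intro z hz
    obtain ⟨d, hd, k1, k2, k3, rfl | rfl | rfl | rfl⟩ := hZm z hz
    · rw [hY.av _ (Y.add_mem hy1 hd), hY.av _ hy1, A3 _ k3]; rfl
    · rw [show y1 + (b + d) = b + (y1 + d) from eo (by abel_nf <;> simp only [ch2, ch3, ch4, ch5, ch6, add_zero, zero_add]), hb.1 _ (Y.add_mem hy1 hd), hY.av _ hy1,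
        map_add, map_add, qb, a2, k2, A2, A3 _ k3]
    · rw [show y1 + (a + d) = a + (y1 + d) from eo (by abel_nf <;> simp only [ch2, ch3, ch4, ch5, ch6, add_zero, zero_add]), ha.1 _ (Y.add_mem hy1 hd), hY.av _ hy1,
        map_add, map_add, qa, a1, k1, A1, A3 _ k3]
    · rw [show y1 + (a + b + d) = a + b + (y1 + d) from eo (by abel_nf <;> simp only [ch2, ch3, ch4, ch5, ch6, add_zero, zero_add]), hab.1 _ (Y.add_mem hy1 hd),
        hY.av _ hy1, LinearMap.add_apply, map_add, map_add, map_add, map_add, qab, a1, a2, k1, k2,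
        A1, A2, A3 _ k3]; rfl
  have BdB : Bd q Z y2 B := by
    refine ⟨?_, b, hbZ, B1⟩
    intro z hz
    obtain ⟨d, hd, k1, k2, k3, rfl | rfl | rfl | rfl⟩ := hZm z hz
    · rw [hY.av _ (Y.add_mem hy2 hd), hY.av _ hy2, B3 _ k3]; rfl
    · rw [show y2 + (b + d) = b + (y2 + d) from eo (by abel_nf <;> simp only [ch2, ch3, ch4, ch5, ch6, add_zero, zero_add]), hb.1 _ (Y.add_mem hy2 hd), hY.av _ hy2,
        map_add, map_add, qb, b2, k2, B1, B3 _ k3]
    · rw [show y2 + (a + d) = a + (y2 + d) from eo (by abel_nf <;> simp only [ch2, ch3, ch4, ch5, ch6, add_zero, zero_add]), ha.1 _ (Y.add_mem hy2 hd), hY.av _ hy2,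
        map_add, map_add, qa, b1, k1, B2, B3 _ k3]
    · rw [show y2 + (a + b + d) = a + b + (y2 + d) from eo (by abel_nf <;> simp only [ch2, ch3, ch4, ch5, ch6, add_zero, zero_add]), hab.1 _ (Y.add_mem hy2 hd),
        hY.av _ hy2, LinearMap.add_apply, map_add, map_add, map_add, map_add, qab, b1, b2, k1, k2,
        B1, B2, B3 _ k3]; rfl
  have hJ : J2 q Z := J2.mk BdA BdB ⟨a, haZ, by rw [A1, B2]; exact n01.symm⟩
  -- the values
  have qx : q x = 1 := hx.self
  have v1 : q (a + x) = 1 → q (b + x) = 1 → q (a + b + x) = 1 := by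
    intro h1 h2
    have := l1 X.n3 hZ.av haZ hbZ qx (by rwa [add_comm]) (by rwa [add_comm])
    rwa [show x + a + b = a + b + x from eo (by abel_nf <;> simp only [ch2, ch3, ch4, ch5, ch6, add_zero, zero_add])] at this
  have v2 : q (a + x) = 1 → q (a + b + x) = 1 → q (b + x) = 1 := by
    intro h1 h2
    have := l1 X.n3 hZ.av haZ (Z.add_mem haZ hbZ) qx (by rwa [add_comm]) (by rwa [add_comm])
    rwa [show x + a + (a + b) = b + x from eo (by abel_nf <;> simp only [ch2, ch3, ch4, ch5, ch6, add_zero, zero_add])] at this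
  have v3 : q (b + x) = 1 → q (a + b + x) = 1 → q (a + x) = 1 := by
    intro h1 h2
    have := l1 X.n3 hZ.av hbZ (Z.add_mem haZ hbZ) qx (by rwa [add_comm]) (by rwa [add_comm])
    rwa [show x + b + (a + b) = a + x from eo (by abel_nf <;> simp only [ch2, ch3, ch4, ch5, ch6, add_zero, zero_add])] at this
  have v0 : ¬ (q (a + x) = 0 ∧ q (b + x) = 0 ∧ q (a + b + x) = 0) := by
    rintro ⟨w1, w2, w3⟩
    have nf : ¬ Fl q Z x := by
      intro h
      have := h a haZ
      rw [add_comm, w1] at this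
      exact n01 this
    have nB : ¬ ∃ h, Bd q Z x h := by
      rintro ⟨h, hh, -⟩
      have h1 := hh a haZ
      have h2 := hh b hbZ
      have h3 := hh (a + b) (Z.add_mem haZ hbZ)
      rw [add_comm x a, w1, qx] at h1
      rw [add_comm x b, w2, qx] at h2
      rw [add_comm x (a + b), w3, qx, map_add] at h3
      grind
    have h1 := l10s X hZ hJ BdA nf nB qx
    rw [hY.av _ hy1, add_comm, hx _ hy1] at h1
    exact n01 h1.symm
  rcases z2 (q (a + x)) with w1 | w1 <;> rcases z2 (q (b + x)) with w2 | w2 <;>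
    rcases z2 (q (a + b + x)) with w3 | w3
  · exact absurd ⟨w1, w2, w3⟩ v0
  · rw [w1, w2, w3]; rfl
  · rw [w1, w2, w3]; rfl
  · exact absurd (v3 w2 w3) (by rw [w1]; exact n01)
  · rw [w1, w2, w3]; rfl
  · exact absurd (v2 w1 w3) (by rw [w2]; exact n01)
  · exact absurd (v1 w1 w2) (by rw [w3]; exact n01)
  · rw [w1, w2, w3]; rfl

/-- normalisation of two classes with different functionals -/
theorem norm2 (X : Mx q m) (hY : Av q m Y) [Finite V] {a b : V}
    {f g : V →ₗ[ZMod 2] ZMod 2} (ha : Bd q Y a f) (hb : Bd q Y b g)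
    (hfg : ∃ y ∈ Y, f y ≠ g y) :
    ∃ y ∈ Y, ∃ z ∈ Y, q (a + y) = 0 ∧ q (b + z) = 0 ∧ q (a + y + (b + z)) = 0 := by
  have hab := l6 X hY ha hb hfg
  obtain ⟨y, hy, c1, c2⟩ := ind2 ha.2 hb.2 hfg (q a) 0
  obtain ⟨z, hz, d1, d2⟩ := ind2 ha.2 hb.2 hfg (q (a + b) + q a + q b) (q b)
  refine ⟨y, hy, z, hz, ?_, ?_, ?_⟩
  · rw [ha.1 y hy, c1]; grind
  · rw [hb.1 z hz, d2]; grind
  · rw [show a + y + (b + z) = a + b + (y + z) from eo (by abel_nf <;> simp only [ch2, ch3, ch4, ch5, ch6, add_zero, zero_add]), hab _ (Y.add_mem hy hz),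
      LinearMap.add_apply, map_add, map_add, c1, c2, d1, d2]
    grind

/-- (3d) -/
theorem l13 (X : Mx q m) (hY : Av q m Y) [Finite V] (hJ : J2 q Y) {a b x : V}
    {f g : V →ₗ[ZMod 2] ZMod 2} (ha : Bd q Y a f) (hb : Bd q Y b g)
    (hfg : ∃ y ∈ Y, f y ≠ g y) (hx : Fl q Y x) :
    (q a + q (a + x)) + (q b + q (b + x)) + (q (a + b) + q (a + b + x)) = 1 := by
  have hab : Bd q Y (a + b) (f + g) := ⟨l6 X hY ha hb hfg, add_ne hfg⟩
  obtain ⟨y, hy, z, hz, e1, e2, e3⟩ := norm2 X hY ha hb hfg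
  have h1 := l13c X hY (ha.shift hy) (hb.shift hz) hfg e1 e2 e3 hx
  have k1 := l9 X hY hJ ha hx y hy
  have k2 := l9 X hY hJ hb hx z hz
  have k3 := l9 X hY hJ hab hx _ (Y.add_mem hy hz)
  have k4 := ha.1 y hy
  have k5 := hb.1 z hz
  have k6 := hab.1 _ (Y.add_mem hy hz)
  rw [show a + x + y = a + y + x from eo (by abel_nf <;> simp only [ch2, ch3, ch4, ch5, ch6, add_zero, zero_add])] at k1
  rw [show b + x + z = b + z + x from eo (by abel_nf <;> simp only [ch2, ch3, ch4, ch5, ch6, add_zero, zero_add])] at k2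
  rw [show a + b + x + (y + z) = a + y + (b + z) + x from eo (by abel_nf <;> simp only [ch2, ch3, ch4, ch5, ch6, add_zero, zero_add])] at k3
  rw [show a + b + (y + z) = a + y + (b + z) from eo (by abel_nf <;> simp only [ch2, ch3, ch4, ch5, ch6, add_zero, zero_add])] at k6
  rw [e1] at k4
  rw [e2] at k5
  rw [e3] at k6
  rw [k1, k2, k3] at h1
  grind

end four

section five

variable {q : V → ZMod 2} {m : ℕ} {Y : Submodule (ZMod 2) V}

open Classical in
/-- the quadratic form -/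
noncomputable def QQ (q : V → ZMod 2) (Y : Submodule (ZMod 2) V) (x : V) : ZMod 2 :=
  if ∃ h, Bd q Y x h then q x else if Fl q Y x then 1 else 0

theorem QQ.b {x : V} {h : V →ₗ[ZMod 2] ZMod 2} (hx : Bd q Y x h) : QQ q Y x = q x := by
  unfold QQ
  rw [if_pos ⟨h, hx⟩]

theorem QQ.f {x : V} (hx : Fl q Y x) : QQ q Y x = 1 := by
  unfold QQ
  rw [if_neg (by rintro ⟨h, hh⟩; exact hh.nfl hx), if_pos hx]

theorem QQ.n {x : V} (h1 : ¬ Fl q Y x) (h2 : ¬ ∃ h, Bd q Y x h) : QQ q Y x = 0 := by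
  unfold QQ
  rw [if_neg h2, if_neg h1]

/-- the rule for a pair of classes with different functionals -/
theorem a1 (X : Mx q m) (hY : Av q m Y) [Finite V] (hJ : J2 q Y) {a b x : V}
    {f g : V →ₗ[ZMod 2] ZMod 2} (ha : Bd q Y a f) (hb : Bd q Y b g)
    (hfg : ∃ y ∈ Y, f y ≠ g y) (hx : ¬ ∃ h, Bd q Y x h) :
    (q a + q (a + x)) + (q b + q (b + x)) + (q (a + b) + q (a + b + x)) = QQ q Y x := by
  by_cases h1 : Fl q Y x
  · rw [QQ.f h1]
    exact l13 X hY hJ ha hb hfg h1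
  · rw [QQ.n h1 hx]
    have hab : Bd q Y (a + b) (f + g) := ⟨l6 X hY ha hb hfg, add_ne hfg⟩
    obtain ⟨y0, hy0, h2⟩ := l12 X hY hJ h1 hx
    rw [h2 a f ha, h2 b g hb, h2 (a + b) (f + g) hab, LinearMap.add_apply]
    grind

theorem a2 (X : Mx q m) (hY : Av q m Y) [Finite V] (hJ : J2 q Y) {a x z : V}
    {f : V →ₗ[ZMod 2] ZMod 2} (ha : Bd q Y a f) (hx : ¬ ∃ h, Bd q Y x h)
    (hz : ¬ ∃ h, Bd q Y z h) (hxz : ¬ ∃ h, Bd q Y (x + z) h) :
    q a + q (a + x) + q (a + z) + q (a + x + z) = QQ q Y x + QQ q Y z + QQ q Y (x + z) := by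
  obtain ⟨b, g, hb, hfg⟩ := hJ f
  have e1 := a1 X hY hJ ha hb hfg hx
  have e2 := a1 X hY hJ (l11 X hY hJ ha hz) hb hfg hx
  have e3 := a1 X hY hJ ha (l11 X hY hJ hb hz) hfg hx
  have e4 := a1 X hY hJ ha hb hfg hz
  have e5 := a1 X hY hJ ha hb hfg hxz
  rw [show a + z + x = a + x + z from by abel, show a + z + b = a + b + z from by abel,
    show a + b + z + x = a + b + x + z from by abel] at e2
  rw [show b + z + x = b + x + z from by abel, show a + (b + z) = a + b + z from by abel,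
    show a + b + z + x = a + b + x + z from by abel] at e3
  rw [show a + (x + z) = a + x + z from by abel, show b + (x + z) = b + x + z from by abel,
    show a + b + (x + z) = a + b + x + z from by abel] at e5
  grind

theorem ncl (X : Mx q m) (hY : Av q m Y) [Finite V] (hJ : J2 q Y) {x z : V}
    (hx : ¬ ∃ h, Bd q Y x h) (hz : ¬ ∃ h, Bd q Y z h) : ¬ ∃ h, Bd q Y (x + z) h := by
  rintro ⟨h, hh⟩
  have h1 := l11 X hY hJ hh hz
  rw [show x + z + z = x from eo (by abel_nf <;> simp only [ch2, ch3, ch4, ch5, ch6, add_zero, zero_add])] at h1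
  exact hx ⟨h, h1⟩

/-- third differences -/
def T3 (F : V → ZMod 2) (a b c : V) : ZMod 2 :=
  F (a + b + c) + F (a + b) + F (a + c) + F (b + c) + F a + F b + F c

theorem T3.s12 (F : V → ZMod 2) (a b c : V) : T3 F a b c = T3 F b a c := by
  unfold T3
  rw [add_comm a b]
  ring

theorem T3.s23 (F : V → ZMod 2) (a b c : V) : T3 F a b c = T3 F a c b := by
  unfold T3
  rw [show a + b + c = a + c + b from by abel, add_comm b c]
  ring

theorem T3.add (F : V → ZMod 2) (a b c : V) : T3 F a b c = T3 F a b (a + c) := by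
  unfold T3
  rw [show a + b + (a + c) = b + c from eo (by abel_nf <;> simp only [ch2, ch3, ch4, ch5, ch6, add_zero, zero_add]), show a + (a + c) = c from eo (by abel_nf <;> simp only [ch2, ch3, ch4, ch5, ch6, add_zero, zero_add]),
    show b + (a + c) = a + b + c from by abel]
  ring

theorem T3.one (X : Mx q m) (hY : Av q m Y) [Finite V] (hJ : J2 q Y) {a b x : V}
    (hx : ¬ ∃ h, Bd q Y x h) : T3 (QQ q Y) a b x = 0 := by
  have c1 : ∀ a b, (∃ h, Bd q Y a h) → (¬ ∃ h, Bd q Y b h) → T3 (QQ q Y) a b x = 0 := by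
    rintro a b ⟨f, ha⟩ hb
    have h1 := a2 X hY hJ ha hx hb (ncl X hY hJ hx hb)
    unfold T3
    rw [QQ.b (l11 X hY hJ (l11 X hY hJ ha hb) hx), QQ.b (l11 X hY hJ ha hb),
      QQ.b (l11 X hY hJ ha hx), QQ.b ha]
    rw [show a + x + b = a + b + x from by abel, show x + b = b + x from by abel] at h1
    grind
  by_cases ha : ∃ h, Bd q Y a h
  · by_cases hb : ∃ h, Bd q Y b h
    · obtain ⟨f, ha⟩ := ha
      obtain ⟨g, hb⟩ := hb
      by_cases hab : ∃ h, Bd q Y (a + b) h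
      · obtain ⟨h, hab⟩ := hab
        have hfg : ∃ y ∈ Y, f y ≠ g y := by
          by_contra hc
          push Not at hc
          exact l8 X hY hJ ha hb hc hab
        have h1 := a1 X hY hJ ha hb hfg hx
        unfold T3
        rw [QQ.b (l11 X hY hJ hab hx), QQ.b hab, QQ.b (l11 X hY hJ ha hx),
          QQ.b (l11 X hY hJ hb hx), QQ.b ha, QQ.b hb]
        grind
      · have h1 := a2 X hY hJ ha hx hab (ncl X hY hJ hx hab)
        rw [show a + (a + b) = b from eo (by abel_nf <;> simp only [ch2, ch3, ch4, ch5, ch6, add_zero, zero_add]), show a + x + (a + b) = b + x from eo (by abel_nf <;> simp only [ch2, ch3, ch4, ch5, ch6, add_zero, zero_add]),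
          show x + (a + b) = a + b + x from by abel] at h1
        unfold T3
        rw [QQ.b (l11 X hY hJ ha hx), QQ.b (l11 X hY hJ hb hx), QQ.b ha, QQ.b hb]
        grind
    · exact c1 a b ha hb
  · by_cases hb : ∃ h, Bd q Y b h
    · rw [T3.s12]
      exact c1 b a hb ha
    · obtain ⟨p, f, hp, -⟩ := hJ 0
      have hab := ncl X hY hJ ha hb
      have h1 := a2 X hY hJ hp ha hx (ncl X hY hJ ha hx)
      have h2 := a2 X hY hJ (l11 X hY hJ hp ha) hb hx (ncl X hY hJ hb hx)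
      have h3 := a2 X hY hJ hp hab hx (ncl X hY hJ hab hx)
      rw [← add_assoc p a b] at h3
      unfold T3
      grind

theorem l1' (X : Mx q m) {u y z : V} (hy : q y = 0) (hz : q z = 0) (hyz : q (y + z) = 0)
    (h1 : q u = 1) (h2 : q (u + y) = 1) (h4 : q (u + z) = 1) : q (u + y + z) = 1 := by
  have h := X.n3 u (u + y) (u + z) h1 h2 h4
    (by rwa [show u + (u + y) = y from eo (by abel_nf <;> simp only [ch2, ch3, ch4, ch5, ch6, add_zero, zero_add])])
    (by rwa [show u + (u + z) = z from eo (by abel_nf <;> simp only [ch2, ch3, ch4, ch5, ch6, add_zero, zero_add])])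
    (by rwa [show u + y + (u + z) = y + z from eo (by abel_nf <;> simp only [ch2, ch3, ch4, ch5, ch6, add_zero, zero_add])])
  rwa [show u + (u + y) + (u + z) = u + y + z from eo (by abel_nf <;> simp only [ch2, ch3, ch4, ch5, ch6, add_zero, zero_add])] at h

/-- `q` is affine on a plane of nonslots -/
theorem l14p (X : Mx q m) {a b c : V} (qa : q a = 0) (qb : q b = 0) (qab : q (a + b) = 0) :
    (q c = 1 → q (c + a) = 1 → q (c + b) = 1 → q (c + (a + b)) = 1) ∧
    (q c = 1 → q (c + a) = 1 → q (c + (a + b)) = 1 → q (c + b) = 1) ∧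
    (q c = 1 → q (c + b) = 1 → q (c + (a + b)) = 1 → q (c + a) = 1) ∧
    (q (c + a) = 1 → q (c + b) = 1 → q (c + (a + b)) = 1 → q c = 1) := by
  refine ⟨?_, ?_, ?_, ?_⟩
  · intro h1 h2 h3
    have := l1' X qa qb qab h1 h2 h3
    rwa [add_assoc] at this
  · intro h1 h2 h3
    have := l1' X qa qab (by rwa [show a + (a + b) = b from eo (by abel_nf <;> simp only [ch2, ch3, ch4, ch5, ch6, add_zero, zero_add])]) h1 h2 h3
    rwa [show c + a + (a + b) = c + b from eo (by abel_nf <;> simp only [ch2, ch3, ch4, ch5, ch6, add_zero, zero_add])] at this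
  · intro h1 h2 h3
    have := l1' X qb qab (by rwa [show b + (a + b) = a from eo (by abel_nf <;> simp only [ch2, ch3, ch4, ch5, ch6, add_zero, zero_add])]) h1 h2 h3
    rwa [show c + b + (a + b) = c + a from eo (by abel_nf <;> simp only [ch2, ch3, ch4, ch5, ch6, add_zero, zero_add])] at this
  · intro h1 h2 h3
    have := l1' X (u := c + a) (y := a + b) (z := b) qab qb
      (by rwa [show a + b + b = a from eo (by abel_nf <;> simp only [ch2, ch3, ch4, ch5, ch6, add_zero, zero_add])]) h1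
      (by rwa [show c + a + (a + b) = c + b from eo (by abel_nf <;> simp only [ch2, ch3, ch4, ch5, ch6, add_zero, zero_add])])
      (by rwa [show c + a + b = c + (a + b) from by abel])
    rwa [show c + a + (a + b) + b = c from eo (by abel_nf <;> simp only [ch2, ch3, ch4, ch5, ch6, add_zero, zero_add])] at this

theorem l14q (X : Mx q m) (hY : Av q m Y) [Finite V] {a b c : V}
    {f g h : V →ₗ[ZMod 2] ZMod 2} (ha : Bd q Y a f) (hb : Bd q Y b g) (hc : Bd q Y c h)
    (hfg : ∃ y ∈ Y, f y ≠ g y) (h1 : ∃ y ∈ Y, h y ≠ f y)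
    (h2 : ∃ y ∈ Y, h y ≠ g y) (h3 : ∃ y ∈ Y, h y ≠ f y + g y)
    (qa : q a = 0) (qb : q b = 0) (qab : q (a + b) = 0) :
    q c + q (c + a) + q (c + b) + q (c + (a + b)) = 0 := by
  obtain ⟨d, hd, d1, d2, d3⟩ := ind3 ha.2 hb.2 hfg hc.2 h1 h2 h3
  have hca := l6 X hY hc ha h1
  have hcb := l6 X hY hc hb h2
  have hab := l6 X hY ha hb hfg
  have hcab := l6 X hY hc (show Bd q Y (a + b) (f + g) from ⟨hab, add_ne hfg⟩) h3
  have k0 := hc.1 d hd
  have k1 := hca d hd
  have k2 := hcb d hd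
  have k3 := hcab d hd
  rw [d3] at k0
  rw [LinearMap.add_apply, d3, d1, add_zero] at k1
  rw [LinearMap.add_apply, d3, d2, add_zero] at k2
  rw [LinearMap.add_apply, LinearMap.add_apply, d3, d1, d2, add_zero, add_zero] at k3
  obtain ⟨P1, P2, P3, P4⟩ := l14p X (c := c) qa qb qab
  obtain ⟨R1, R2, R3, R4⟩ := l14p X (c := c + d) qa qb qab
  rw [show c + d + a = c + a + d from by abel, show c + d + b = c + b + d from by abel,
    show c + d + (a + b) = c + (a + b) + d from by abel, k0, k1, k2, k3] at R1 R2 R3 R4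
  rcases z2 (q c) with g0 | g0 <;> rcases z2 (q (c + a)) with g1 | g1 <;>
    rcases z2 (q (c + b)) with g2 | g2 <;> rcases z2 (q (c + (a + b))) with g3 | g3 <;>
    grind

theorem T3.all (X : Mx q m) (hY : Av q m Y) [Finite V] (hJ : J2 q Y) (a b c : V) :
    T3 (QQ q Y) a b c = 0 := by
  by_cases hc : ∃ h, Bd q Y c h
  swap
  · exact T3.one X hY hJ hc
  by_cases hb : ∃ h, Bd q Y b h
  swap
  · rw [T3.s23]; exact T3.one X hY hJ hb
  by_cases ha : ∃ h, Bd q Y a h
  swap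
  · rw [T3.s12, T3.s23]; exact T3.one X hY hJ ha
  by_cases hac : ∃ h, Bd q Y (a + c) h
  swap
  · rw [T3.add]; exact T3.one X hY hJ hac
  by_cases hab : ∃ h, Bd q Y (a + b) h
  swap
  · rw [T3.s23, T3.add]; exact T3.one X hY hJ hab
  by_cases hbc : ∃ h, Bd q Y (b + c) h
  swap
  · rw [T3.s12, T3.add]; exact T3.one X hY hJ hbc
  by_cases habc : ∃ h, Bd q Y (a + b + c) h
  swap
  · have e : T3 (QQ q Y) a b c = T3 (QQ q Y) a b (a + b + c) := by
      rw [T3.add (QQ q Y) a b c, T3.s12, T3.add (QQ q Y) b a (a + c), T3.s12,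
        show b + (a + c) = a + b + c from by abel]
    rw [e]
    exact T3.one X hY hJ habc
  obtain ⟨f, ha⟩ := ha
  obtain ⟨g, hb⟩ := hb
  obtain ⟨h, hc⟩ := hc
  obtain ⟨k1, hab⟩ := hab
  obtain ⟨k2, hac⟩ := hac
  obtain ⟨k3, hbc⟩ := hbc
  obtain ⟨k4, habc⟩ := habc
  have hfg : ∃ y ∈ Y, f y ≠ g y := by
    by_contra hn; push Not at hn
    exact l8 X hY hJ ha hb hn hab
  have h1 : ∃ y ∈ Y, h y ≠ f y := by
    by_contra hn; push Not at hn
    rw [add_comm] at hac
    exact l8 X hY hJ hc ha hn hac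
  have h2 : ∃ y ∈ Y, h y ≠ g y := by
    by_contra hn; push Not at hn
    rw [add_comm] at hbc
    exact l8 X hY hJ hc hb hn hbc
  have hab' : Bd q Y (a + b) (f + g) := ⟨l6 X hY ha hb hfg, add_ne hfg⟩
  have h3 : ∃ y ∈ Y, h y ≠ f y + g y := by
    by_contra hn; push Not at hn
    rw [add_comm] at habc
    exact l8 X hY hJ hc hab' hn habc
  obtain ⟨y, hy, z, hz, e1, e2, e3⟩ := norm2 X hY ha hb hfg
  have key := l14q X hY (ha.shift hy) (hb.shift hz) hc hfg h1 h2 h3 e1 e2 e3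
  have hca := l6 X hY hc ha h1
  have hcb := l6 X hY hc hb h2
  have hcab := l6 X hY hc hab' h3
  have k0 := ha.1 y hy
  have k1' := hb.1 z hz
  have k2' := hab'.1 _ (Y.add_mem hy hz)
  have k3' := hca y hy
  have k4' := hcb z hz
  have k5' := hcab _ (Y.add_mem hy hz)
  rw [show a + b + (y + z) = a + y + (b + z) from by abel, e3] at k2'
  rw [e1] at k0
  rw [e2] at k1'
  rw [show c + a + y = c + (a + y) from by abel] at k3'
  rw [show c + b + z = c + (b + z) from by abel] at k4'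
  rw [show c + (a + b) + (y + z) = c + (a + y + (b + z)) from by abel] at k5'
  rw [k3', k4', k5'] at key
  unfold T3
  rw [QQ.b habc, QQ.b hab, QQ.b hac, QQ.b hbc, QQ.b ha, QQ.b hb, QQ.b hc]
  rw [show a + b + c = c + (a + b) from by abel, show a + c = c + a from by abel,
    show b + c = c + b from by abel]
  simp only [LinearMap.add_apply, map_add] at key k0 k1' k2'
  grind

/-- **Section 3 of Theorem 88**: the slots are given by a quadratic form, up to its radical. -/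
theorem quad (X : Mx q m) (hY : Av q m Y) [Finite V] {v w : V}
    {f g : V →ₗ[ZMod 2] ZMod 2} (hv : Bd q Y v f) (hw : Bd q Y w g)
    (hfg : ∃ y ∈ Y, f y ≠ g y) :
    ∃ (Q : V → ZMod 2) (b : V →ₗ[ZMod 2] V →ₗ[ZMod 2] ZMod 2),
      (∀ x y, Q (x + y) = Q x + Q y + b x y) ∧ (∀ x, Q x = 1 → q x = 1) ∧
      (∀ x, q x = 1 → Q x = 1 ∨ (Q x = 0 ∧ ∀ y, b x y = 0)) ∧ (∀ y ∈ Y, Q y = 0) ∧
      (∀ a h, Bd q Y a h → ∀ y ∈ Y, b a y = h y) ∧ ∃ u, Q u = 1 := by
  have hJ : J2 q Y := J2.mk hv hw hfg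
  have QY : ∀ y ∈ Y, QQ q Y y = 0 := by
    intro y hy
    refine QQ.n (nfl_of_z (hY.av y hy)) ?_
    rintro ⟨h, hh⟩
    exact hh.nmem hY.av hy
  have Q0 : QQ q Y 0 = 0 := QY 0 Y.zero_mem
  have tt : ∀ a b c, T3 (QQ q Y) a b c = 0 := T3.all X hY hJ
  let B : V →ₗ[ZMod 2] V →ₗ[ZMod 2] ZMod 2 := LinearMap.mk₂ (ZMod 2)
    (fun x y => QQ q Y (x + y) + QQ q Y x + QQ q Y y)
    (by
      intro x x' y
      have h := tt x x' y
      unfold T3 at h
      grind)
    (by
      intro r x y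
      rcases z2 r with rfl | rfl
      · rw [zero_smul, zero_smul, zero_add, Q0]; grind
      · rw [one_smul, one_smul])
    (by
      intro x y y'
      have h := tt x y y'
      unfold T3 at h
      rw [← add_assoc]
      grind)
    (by
      intro r x y
      rcases z2 r with rfl | rfl
      · rw [zero_smul, zero_smul, add_zero, Q0]; grind
      · rw [one_smul, one_smul])
  have hB : ∀ x y, B x y = QQ q Y (x + y) + QQ q Y x + QQ q Y y := fun x y => rfl
  refine ⟨QQ q Y, B, ?_, ?_, ?_, QY, ?_, ?_⟩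
  · intro x y
    rw [hB]; grind
  · intro x hx
    by_cases h1 : ∃ h, Bd q Y x h
    · obtain ⟨h, hh⟩ := h1
      rwa [QQ.b hh] at hx
    · by_cases h2 : Fl q Y x
      · exact h2.self
      · rw [QQ.n h2 h1] at hx
        exact absurd hx n01
  · intro x hx
    by_cases h1 : ∃ h, Bd q Y x h
    · obtain ⟨h, hh⟩ := h1
      left; rwa [QQ.b hh]
    · by_cases h2 : Fl q Y x
      · left; exact QQ.f h2
      · right
        refine ⟨QQ.n h2 h1, fun y => ?_⟩
        rw [hB, QQ.n h2 h1]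
        by_cases h3 : ∃ h, Bd q Y y h
        · obtain ⟨h, hh⟩ := h3
          have h4 := l11 X hY hJ hh h1
          rw [add_comm x y, QQ.b h4, QQ.b hh, l10s X hY hJ hh h2 h1 hx]
          grind
        · obtain ⟨p, k, hp, -⟩ := hJ 0
          have h4 := a2 X hY hJ hp h3 h1 (ncl X hY hJ h3 h1)
          rw [l10s X hY hJ hp h2 h1 hx, l10s X hY hJ (l11 X hY hJ hp h3) h2 h1 hx,
            QQ.n h2 h1] at h4
          rw [add_comm x y]
          grind
  · intro a h ha y hy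
    rw [hB, QQ.b (ha.shift hy), QQ.b ha, QY y hy, ha.1 y hy]
    grind
  · obtain ⟨u, -, -, hu, -, -⟩ := l7 X hY
    exact ⟨u, QQ.f hu⟩

end five

end Pool.Agent.ETPT.Q3
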