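import Pool.Agent.ETPN.HP2

/-!
**FLAG THEOREM for a tight subspace** (note 2765, helper11): a subspace `Y` without slots of one
symbol `c ≠ 0` such that `V_s + Y` has index two for every slot `s` (inside `E`), whose cosets
are covered by the slots and whose classes are affine, refutes a structure with `K4At`.
-/

set_option autoImplicit false
set_option linter.unusedSimpArgs false
set_option linter.unnecessarySeqFocus false
set_option linter.unusedSectionVars false

namespace Pool.Agent.ETPT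

open Pool.Agent.Helper58.PLine (QData)
open Pool.Agent.ETCP
open Pool.Agent.ETPF
open Pool.Agent.ETPG
open Pool.Agent.ETPN
open ETC (zm)

variable {V Q : Type} [AddCommGroup V] [Module (ZMod 2) V] {D : QData V Q}

/-- `V_s + Y` -/
def VY (D : QData V Q) (Y : Submodule (ZMod 2) V) (s : V) : Submodule (ZMod 2) V :=
  mkS (fun v => ∃ k, C D s k ∧ k + v ∈ Y) ⟨0, C.zero s, by rw [add_zero]; exact Y.zero_mem⟩ (by
    rintro a b ⟨k, h1, h2⟩ ⟨k', h3, h4⟩
    refine ⟨k + k', h1.add h3, ?_⟩
    have := Y.add_mem h2 h4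
    rwa [show k + a + (k' + b) = k + k' + (a + b) from by abel] at this)

theorem mem_VY {Y : Submodule (ZMod 2) V} {s v : V} :
    v ∈ VY D Y s ↔ ∃ k, C D s k ∧ k + v ∈ Y := Iff.rfl

/-- the hypotheses: `Y` contains no slot, all slots are in `E`, the cosets of `Y` in `E` other
than `Y` contain slots, and `V_s + Y` has index at most two in `E` -/
structure TY (D : QData V Q) (c : Q) (E Y : Submodule (ZMod 2) V) : Prop where
  he : D.e = 0
  cne : c ≠ D.z
  sd : ∀ s, Sg D c s → s ∈ E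
  le : Y ≤ E
  av : ∀ s, Sg D c s → s ∉ Y
  cov : ∀ v ∈ E, v ∉ Y → ∃ s, Sg D c s ∧ s + v ∈ Y
  ti : ∀ s, Sg D c s → ∀ v ∈ E, ∀ v' ∈ E, v ∉ VY D Y s → v' ∉ VY D Y s → v + v' ∈ VY D Y s

namespace TY

variable {c : Q} {E Y : Submodule (ZMod 2) V} (X : TY D c E Y)

include X

theorem nb_mem {s r : V} (h : D.q s r = c) : r ∈ E := X.sd _ (Sg.right h)

theorem ann_mem {s v : V} (hs : Sg D c s) (hv : C D s v) : v ∈ E := by
  obtain ⟨r, hr⟩ := hs
  have h1 := X.nb_mem (qa hr hv)
  have h2 := E.add_mem (X.nb_mem hr) h1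
  rwa [show r + (r + v) = v from eo (by
    abel_nf <;> simp only [ch2, ch3, ch4, add_zero, zero_add])] at h2

/-- a neighbour of `s` is not in `V_s + Y` -/
theorem nb_not {s y : V} (h : D.q s y = c) : y ∉ VY D Y s := by
  rintro ⟨k, h1, h2⟩
  have := qa h h1
  exact X.av _ (Sg.right this) (by rwa [add_comm])

/-- `N_s + Y` is the complement of `V_s + Y` -/
theorem nb {s v : V} (hs : Sg D c s) (hv : v ∈ E) (h : v ∉ VY D Y s) :
    ∃ y, D.q s y = c ∧ y + v ∈ Y := by
  obtain ⟨r, hr⟩ := hs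
  obtain ⟨k, h1, h2⟩ := X.ti s ⟨r, hr⟩ v hv r (X.nb_mem hr) h (X.nb_not hr)
  exact ⟨r + k, qa hr h1, by rwa [show r + k + v = k + (v + r) from by abel]⟩

/-- membership in `V_s + Y` depends only on the class -/
theorem cls {s v v' : V} (h : v + v' ∈ Y) (hv : v ∈ VY D Y s) : v' ∈ VY D Y s := by
  obtain ⟨k, h1, h2⟩ := hv
  refine ⟨k, h1, ?_⟩
  have := Y.add_mem h2 h
  rwa [show k + v + (v + v') = k + v' from eo (by
    abel_nf <;> simp only [ch2, ch3, ch4, add_zero, zero_add])] at this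

theorem self_mem {s : V} : s ∈ VY D Y s := ⟨s, C.self X.he s, by
  rw [ZModModule.add_self]; exact Y.zero_mem⟩

/-- two proper subspaces of `E` -/
theorem ex_out {A B : Submodule (ZMod 2) V} {a b : V} (ha : a ∈ E) (hb : b ∈ E)
    (ha' : a ∉ A) (hb' : b ∉ B) : ∃ p ∈ E, p ∉ A ∧ p ∉ B := by
  by_cases h1 : a ∈ B
  · by_cases h2 : b ∈ A
    · refine ⟨a + b, E.add_mem ha hb, fun h => ha' ?_, fun h => hb' ?_⟩
      · have := A.add_mem h h2
        rwa [show a + b + b = a from eo (by
          abel_nf <;> simp only [ch2, ch3, ch4, add_zero, zero_add])] at this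
      · have := B.add_mem h h1
        rwa [show a + b + a = b from eo (by
          abel_nf <;> simp only [ch2, ch3, ch4, add_zero, zero_add])] at this
    · exact ⟨b, hb, h2, hb'⟩
  · exact ⟨a, ha, ha', h1⟩

/-- three slots with sum in `Y`, the first two outside `V_r + Y` -/
theorem key {G : Submodule (ZMod 2) V} (hG : ∀ s s', Sg D c s → Sg D c s' → s + s' ∈ Y →
    s + s' ∈ G) {a b e r : V} (ha : Sg D c a) (hb : Sg D c b) (he : Sg D c e)
    (hr : Sg D c r) (h : a + b + e ∈ Y) (h1 : a ∉ VY D Y r) (h2 : b ∉ VY D Y r) :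
    a + b + e ∈ G := by
  have aE := X.sd _ ha
  have bE := X.sd _ hb
  have eE := X.sd _ he
  have h3 : e ∈ VY D Y r := by
    have := X.ti r hr a aE b bE h1 h2
    exact X.cls h this
  obtain ⟨y0, hy0⟩ := id he
  obtain ⟨p, hp, p1, p2⟩ := X.ex_out aE (X.nb_mem hy0) h1 (X.nb_not hy0)
  obtain ⟨y, y1, y2⟩ := X.nb he hp p2
  obtain ⟨z, z1, z2⟩ := X.nb hr hp p1
  have p3 : p + e ∉ VY D Y r := fun hh => p1 (by
    have := (VY D Y r).add_mem hh h3
    rwa [show p + e + e = p from eo (by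
      abel_nf <;> simp only [ch2, ch3, ch4, add_zero, zero_add])] at this)
  obtain ⟨z', z3, z4⟩ := X.nb hr (E.add_mem hp eE) p3
  obtain ⟨a', a1, a2⟩ := X.nb hr aE h1
  have y3 : D.q e (y + e) = c := qa y1 (C.self X.he e)
  -- `a' + z + z'` is a neighbour of `r`
  have w1 : D.q r (a' + (z + z')) = c := qa a1 (q_eq_iff.1 (z1.trans z3.symm))
  have g1 := hG _ _ (Sg.right a1) ha a2
  have g2 := hG _ _ (Sg.right w1) hb (by
    have := Y.add_mem (Y.add_mem a2 (Y.add_mem z2 z4)) h
    rwa [show a' + a + (z + p + (z' + (p + e))) + (a + b + e) = a' + (z + z') + b from eo (by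
      abel_nf <;> simp only [ch2, ch3, ch4, add_zero, zero_add])] at this)
  have g3 := hG _ _ (Sg.right z1) (Sg.right y1) (by
    have := Y.add_mem z2 y2
    rwa [show z + p + (y + p) = z + y from eo (by
      abel_nf <;> simp only [ch2, ch3, ch4, add_zero, zero_add])] at this)
  have g4 := hG _ _ (Sg.right z3) (Sg.right y3) (by
    have := Y.add_mem z4 y2
    rwa [show z' + (p + e) + (y + p) = z' + (y + e) from eo (by
      abel_nf <;> simp only [ch2, ch3, ch4, add_zero, zero_add])] at this)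
  have := G.add_mem (G.add_mem g1 g2) (G.add_mem g3 g4)
  rwa [show a' + a + (a' + (z + z') + b) + (z + y + (z' + (y + e))) = a + b + e from eo (by
      abel_nf <;> simp only [ch2, ch3, ch4, add_zero, zero_add])] at this

/-- three slots with sum in `Y` -/
theorem key' {G : Submodule (ZMod 2) V} (hG : ∀ s s', Sg D c s → Sg D c s' → s + s' ∈ Y →
    s + s' ∈ G) {a b e : V} (ha : Sg D c a) (hb : Sg D c b) (he : Sg D c e)
    (h : a + b + e ∈ Y) : a + b + e ∈ G := by
  obtain ⟨r, hr⟩ := id ha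
  rw [D.symm] at hr
  have h1 : a ∉ VY D Y r := X.nb_not hr
  have sr : Sg D c r := Sg.left hr
  by_cases h2 : b ∈ VY D Y r
  · have h3 : e ∉ VY D Y r := fun hh => h1 (by
      refine X.cls ?_ ((VY D Y r).add_mem h2 hh)
      rwa [show b + e + a = a + b + e from by abel])
    have := X.key hG ha he hb sr (by rwa [show a + e + b = a + b + e from by abel]) h1 h3
    rwa [show a + e + b = a + b + e from by abel] at this
  · exact X.key hG ha hb he sr h h1 h2

/-- **(c)** a subspace containing all differences inside the classes -/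
theorem four {G : Submodule (ZMod 2) V} (hsp : E ≤ Submodule.span (ZMod 2) {s | Sg D c s})
    (hG : ∀ s s', Sg D c s → Sg D c s' → s + s' ∈ Y → s + s' ∈ G) (hGY : G ≤ Y) : Y ≤ G := by
  let M : Submodule (ZMod 2) V := mkS (fun v => v ∈ G ∨ ∃ s, Sg D c s ∧ s + v ∈ G)
    (Or.inl G.zero_mem) (by
      rintro v v' (h | ⟨s, hs, h⟩) (h' | ⟨s', hs', h'⟩)
      · exact Or.inl (G.add_mem h h')
      · refine Or.inr ⟨s', hs', ?_⟩
        have := G.add_mem h h'
        rwa [show v + (s' + v') = s' + (v + v') from by abel] at this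
      · refine Or.inr ⟨s, hs, ?_⟩
        have := G.add_mem h h'
        rwa [show s + v + v' = s + (v + v') from by abel] at this
      · by_cases h1 : s + s' ∈ Y
        · left
          have := G.add_mem (hG s s' hs hs' h1) (G.add_mem h h')
          rwa [show s + s' + (s + v + (s' + v')) = v + v' from eo (by
            abel_nf <;> simp only [ch2, ch3, ch4, add_zero, zero_add])] at this
        · right
          obtain ⟨e, h2, h3⟩ := X.cov _ (E.add_mem (X.sd _ hs) (X.sd _ hs')) h1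
          refine ⟨e, h2, ?_⟩
          have h4 := X.key' hG hs hs' h2 (by rwa [show s + s' + e = e + (s + s') from by abel])
          have := G.add_mem h4 (G.add_mem h h')
          rwa [show s + s' + e + (s + v + (s' + v')) = e + (v + v') from eo (by
            abel_nf <;> simp only [ch2, ch3, ch4, add_zero, zero_add])] at this)
  have hM : Submodule.span (ZMod 2) {s | Sg D c s} ≤ M := by
    rw [Submodule.span_le]
    intro s hs
    exact Or.inr ⟨s, hs, by rw [ZModModule.add_self]; exact G.zero_mem⟩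
  intro y hy
  rcases hM (hsp (X.le hy)) with h | ⟨s, hs, h⟩
  · exact h
  · exfalso
    apply X.av s hs
    have := Y.add_mem (hGY h) hy
    rwa [show s + y + y = s from eo (by
      abel_nf <;> simp only [ch2, ch3, ch4, add_zero, zero_add])] at this

end TY

/-- `d` commutes with a slot `y` such that `w ∉ V_y + Y` -/
def Dfy (D : QData V Q) (c : Q) (Y : Submodule (ZMod 2) V) (w d : V) : Prop :=
  ∃ y, Sg D c y ∧ C D y d ∧ w ∉ VY D Y y

theorem Dfy.split {c : Q} {Y : Submodule (ZMod 2) V} {w w' d : V}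
    (h : Dfy D c Y (w + w') d) : Dfy D c Y w d ∨ Dfy D c Y w' d := by
  obtain ⟨y, h1, h2, h3⟩ := h
  by_cases h4 : w ∈ VY D Y y
  · by_cases h5 : w' ∈ VY D Y y
    · exact absurd ((VY D Y y).add_mem h4 h5) h3
    · exact Or.inr ⟨y, h1, h2, h5⟩
  · exact Or.inl ⟨y, h1, h2, h4⟩

namespace TY

variable {c : Q} {E Y : Submodule (ZMod 2) V} (X : TY D c E Y)

include X

/-- two slots of one class -/
theorem df_of {s s' : V} (hs : Sg D c s) (hs' : Sg D c s') : Dfy D c Y s (s + s') := by
  obtain ⟨y, h1, h2⟩ := hs.common hs'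
  rw [D.symm] at h1 h2
  exact ⟨y, Sg.left h1, q_eq_iff.1 (h1.trans h2.symm), X.nb_not h1⟩

theorem df_cl {w w' d : V} (h : w + w' ∈ Y) (hd : Dfy D c Y w d) : Dfy D c Y w' d := by
  obtain ⟨y, h1, h2, h3⟩ := hd
  exact ⟨y, h1, h2, fun hh => h3 (X.cls (by rwa [add_comm]) hh)⟩

theorem df_pair {w d : V} (hw : w ∈ E) (h : Dfy D c Y w d) :
    ∃ s, Sg D c s ∧ Sg D c (s + d) ∧ s + w ∈ Y := by
  obtain ⟨y, h1, h2, h3⟩ := h
  obtain ⟨s, h4, h5⟩ := X.nb h1 hw h3
  exact ⟨s, Sg.right h4, Sg.right (qa h4 h2), h5⟩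

theorem df_nr {w d : V} (h : Dfy D c Y w d) : w ∉ Y := by
  obtain ⟨y, h1, h2, h3⟩ := h
  exact fun hh => h3 ⟨0, C.zero y, by rwa [zero_add]⟩

theorem df_zero {w : V} (hw : w ∈ E) (h : w ∉ Y) : Dfy D c Y w 0 := by
  obtain ⟨s, h1, h2⟩ := X.cov w hw h
  have h3 := X.df_of h1 h1
  rw [ZModModule.add_self] at h3
  exact X.df_cl h2 h3

end TY

/-- all classes are affine -/
def AffY (D : QData V Q) (c : Q) (Y : Submodule (ZMod 2) V) : Prop :=
  ∀ s1 s2 s3, Sg D c s1 → Sg D c s2 → Sg D c s3 → s1 + s2 ∈ Y → s2 + s3 ∈ Y →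
    Sg D c (s1 + s2 + s3)

namespace TY

variable {c : Q} {E Y : Submodule (ZMod 2) V} (X : TY D c E Y)

include X

theorem df_add (ha : AffY D c Y) {w d d' : V} (hw : w ∈ E) (hd : d ∈ Y)
    (hd' : d' ∈ Y) (h : Dfy D c Y w d) (h' : Dfy D c Y w d') : Dfy D c Y w (d + d') := by
  obtain ⟨s, a1, a2, a3⟩ := X.df_pair hw h
  obtain ⟨s', b1, b2, b3⟩ := X.df_pair hw h'
  have h1 : s + s' ∈ Y := by
    have := Y.add_mem a3 b3
    rwa [show s + w + (s' + w) = s + s' from eo (by
      abel_nf <;> simp only [ch2, ch3, ch4, add_zero, zero_add])] at this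
  have h2 : Sg D c (s + d') := by
    have := ha s s' (s' + d') a1 b1 b2 h1 (by
      rwa [show s' + (s' + d') = d' from eo (by
        abel_nf <;> simp only [ch2, ch3, ch4, add_zero, zero_add])])
    rwa [show s + s' + (s' + d') = s + d' from eo (by
      abel_nf <;> simp only [ch2, ch3, ch4, add_zero, zero_add])] at this
  have h3 : Sg D c (s + (d + d')) := by
    have := ha (s + d) s (s + d') a2 a1 h2 (by
      rwa [show s + d + s = d from eo (by
        abel_nf <;> simp only [ch2, ch3, ch4, add_zero, zero_add])]) (by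
      rwa [show s + (s + d') = d' from eo (by
        abel_nf <;> simp only [ch2, ch3, ch4, add_zero, zero_add])])
    rwa [show s + d + s + (s + d') = s + (d + d') from eo (by
      abel_nf <;> simp only [ch2, ch3, ch4, add_zero, zero_add])] at this
  have h4 := X.df_of a1 h3
  rw [show s + (s + (d + d')) = d + d' from eo (by
      abel_nf <;> simp only [ch2, ch3, ch4, add_zero, zero_add])] at h4
  exact X.df_cl a3 h4

/-- **FLAG THEOREM for tight subspaces** -/
theorem false_of_tight [Finite V] (k4 : ∀ z, z ≠ 0 → ETCD2.K4At D z)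
    (hsp : E ≤ Submodule.span (ZMod 2) {s | Sg D c s}) (hne : ∃ s, Sg D c s)
    (ha : AffY D c Y) : False := by
  classical
  obtain ⟨s0, hs0⟩ := hne
  let Dw : V → Set V := fun w => {d | d ∈ Y ∧ Dfy D c Y w d}
  obtain ⟨w0, ⟨hw0, hw0'⟩, hmax⟩ := Set.exists_max_image {w : V | w ∈ E ∧ w ∉ Y}
    (fun w => (Dw w).ncard) (Set.toFinite _) ⟨s0, X.sd _ hs0, X.av _ hs0⟩
  have hall : ∀ w ∈ E, Dw w ⊆ Dw w0 := by
    rintro w hw d ⟨hd, hd'⟩
    by_contra hcon
    have hd0 : ¬ Dfy D c Y w0 d := fun hh => hcon ⟨hd, hh⟩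
    have hw1 : w + w0 ∉ Y := fun hh => hd0 (X.df_cl hh hd')
    have hw1E : w + w0 ∈ E := E.add_mem hw hw0
    have i1 : ∀ x, Dfy D c Y w x → Dfy D c Y w0 x ∨ Dfy D c Y (w + w0) x := by
      intro x hx
      refine Dfy.split ?_
      rwa [show w0 + (w + w0) = w from eo (by
        abel_nf <;> simp only [ch2, ch3, ch4, add_zero, zero_add])]
    have i2 : ∀ x, Dfy D c Y w0 x → Dfy D c Y w x ∨ Dfy D c Y (w + w0) x := by
      intro x hx
      refine Dfy.split ?_
      rwa [show w + (w + w0) = w0 from eo (by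
        abel_nf <;> simp only [ch2, ch3, ch4, add_zero, zero_add])]
    have i3 : Dfy D c Y (w + w0) d := (i1 d hd').resolve_left hd0
    have i4 : Dw w ⊆ Dw (w + w0) := by
      rintro x ⟨hx, hx'⟩
      rcases i1 x hx' with h1 | h1
      · refine ⟨hx, ?_⟩
        have h2 := X.df_add ha hw hd hx hd' hx'
        rcases i1 _ h2 with h3 | h3
        · exfalso
          apply hd0
          have := X.df_add ha hw0 (Y.add_mem hd hx) hx h3 h1
          rwa [show d + x + x = d from eo (by
            abel_nf <;> simp only [ch2, ch3, ch4, add_zero, zero_add])] at this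
        · have := X.df_add ha hw1E (Y.add_mem hd hx) hd h3 i3
          rwa [show d + x + d = x from eo (by
            abel_nf <;> simp only [ch2, ch3, ch4, add_zero, zero_add])] at this
      · exact ⟨hx, h1⟩
    have i5 : Dw w0 ⊆ Dw (w + w0) := by
      rintro x ⟨hx, hx'⟩
      rcases i2 x hx' with h1 | h1
      · exact i4 ⟨hx, h1⟩
      · exact ⟨hx, h1⟩
    have i6 : Dw w0 = Dw (w + w0) :=
      Set.eq_of_subset_of_ncard_le i5 (hmax _ ⟨hw1E, hw1⟩) (Set.toFinite _)
    exact hcon (by rw [i6]; exact i4 ⟨hd, hd'⟩)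
  let G : Submodule (ZMod 2) V := mkS (fun d => d ∈ Y ∧ Dfy D c Y w0 d)
    ⟨Y.zero_mem, X.df_zero hw0 hw0'⟩ fun a b h h' =>
      ⟨Y.add_mem h.1 h'.1, X.df_add ha hw0 h.1 h'.1 h.2 h'.2⟩
  have hG := X.four (G := G) hsp (fun s s' hs hs' h => hall s (X.sd _ hs)
    ⟨h, X.df_of hs hs'⟩) (fun d hd => hd.1)
  let W2 : Submodule (ZMod 2) V := mkS (fun w => w ∈ E ∧ ¬ ∀ d ∈ Y, Dfy D c Y w d)
    ⟨E.zero_mem, fun hh => X.df_nr (hh 0 Y.zero_mem) Y.zero_mem⟩ (by
      rintro a b ⟨aE, h⟩ ⟨bE, h'⟩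
      refine ⟨E.add_mem aE bE, fun hh => ?_⟩
      push Not at h h'
      obtain ⟨d, h1, h2⟩ := h
      obtain ⟨d', h3, h4⟩ := h'
      have h5 : Dfy D c Y b d := (Dfy.split (hh d h1)).resolve_left h2
      have h6 : Dfy D c Y a d' := (Dfy.split (hh d' h3)).resolve_right h4
      have h7 := Y.add_mem h1 h3
      rcases Dfy.split (hh _ h7) with h8 | h8
      · apply h2
        have := X.df_add ha aE h7 h3 h8 h6
        rwa [show d + d' + d' = d from eo (by
          abel_nf <;> simp only [ch2, ch3, ch4, add_zero, zero_add])] at this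
      · apply h4
        have := X.df_add ha bE h7 h1 h8 h5
        rwa [show d + d' + d = d' from eo (by
          abel_nf <;> simp only [ch2, ch3, ch4, add_zero, zero_add])] at this)
  have hW : w0 ∉ W2 := fun hh => hh.2 fun d hd => (hG hd).2
  obtain ⟨l, l1, l2⟩ := ETC.exists_dual_sep hW
  refine false_of_HP X.he X.cne k4 X.sd (l := l) (fun v hv hl => ?_) ⟨w0, hw0, l1⟩
  have h1 : ∀ d ∈ Y, Dfy D c Y v d := by
    by_contra hcon
    have := l2 v ⟨hv, hcon⟩
    rw [hl] at this
    exact one_ne_zero this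
  obtain ⟨s, h2, h3⟩ := X.cov v hv (X.df_nr (h1 0 Y.zero_mem))
  obtain ⟨s', h4, h5, h6⟩ := X.df_pair hv (h1 _ h3)
  have h7 : s + s' ∈ Y := by
    have := Y.add_mem h3 h6
    rwa [show s + v + (s' + v) = s + s' from eo (by
      abel_nf <;> simp only [ch2, ch3, ch4, add_zero, zero_add])] at this
  have h8 := ha s s' (s' + (s + v)) h2 h4 h5 h7 (by
    rwa [show s' + (s' + (s + v)) = s + v from eo (by
      abel_nf <;> simp only [ch2, ch3, ch4, add_zero, zero_add])])
  rwa [show s + s' + (s' + (s + v)) = v from eo (by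
      abel_nf <;> simp only [ch2, ch3, ch4, add_zero, zero_add])] at h8

/-- (3N) makes all classes of a subspace without slots affine -/
theorem aff_of_3N (n3 : ∀ a b e, Sg D c a → Sg D c b → Sg D c e → ¬ Sg D c (a + b) →
    ¬ Sg D c (a + e) → ¬ Sg D c (b + e) → Sg D c (a + b + e)) : AffY D c Y := by
  intro a b e ha hb he h1 h2
  refine n3 a b e ha hb he (fun h => X.av _ h h1) (fun h => X.av _ h ?_) (fun h => X.av _ h h2)
  have := Y.add_mem h1 h2
  rwa [show a + b + (b + e) = a + e from eo (by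
    abel_nf <;> simp only [ch2, ch3, ch4, add_zero, zero_add])] at this

/-- a tight subspace and (3N) -/
theorem false_of_tight_3N [Finite V] (k4 : ∀ z, z ≠ 0 → ETCD2.K4At D z)
    (hsp : E ≤ Submodule.span (ZMod 2) {s | Sg D c s}) (hne : ∃ s, Sg D c s)
    (n3 : ∀ a b e, Sg D c a → Sg D c b → Sg D c e → ¬ Sg D c (a + b) →
      ¬ Sg D c (a + e) → ¬ Sg D c (b + e) → Sg D c (a + b + e)) : False :=
  X.false_of_tight k4 hsp hne (X.aff_of_3N n3)

end TY

end Pool.Agent.ETPT
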